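import Mathlib
import Pool.Agent.H36Sq.Gen

/-!
# Squares in `F_2^n x F_2^n`: common definitions

Interface between the inverse theorem for the directional norm (part 1) and the regularity and
counting argument (part 2).  Averages are `Finset.expect`, written `𝔼`.
-/

namespace Pool.Agent.H81.SQ

open Finset Pool.Agent.H36Sq
open scoped BigOperators ComplexConjugate

/-- Subspaces of a finite space are finite (the only instance used). -/
noncomputable instance instFintypeSub {G : Type} [AddCommGroup G] [Module (ZMod 2) G] [Fintype G]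
    (H : Submodule (ZMod 2) G) : Fintype H := Fintype.ofFinite _

/-- Eighth power of the directional norm: the cube average in the directions
`(s,0)`, `(0,s)`, `(s,s)`. -/
noncomputable def U8 {G : Type} [AddCommGroup G] [Fintype G] (f : G → G → ℂ) : ℝ :=
  𝔼 o : G, 𝔼 u : G, 𝔼 v : G,
    ‖𝔼 x : G, f x u * conj (f (x + o) (u + o)) * conj (f x v) * f (x + o) (v + o)‖ ^ 2

/-- The inverse theorem (result of part 1). -/
def T_IT : Prop :=
  ∀ δ : ℝ, 0 < δ → ∃ c : ℝ, 0 < c ∧
    ∀ (G : Type) [AddCommGroup G] [Module (ZMod 2) G] [Fintype G] (f : G → G → ℂ),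
      (∀ x y, ‖f x y‖ ≤ 1) → δ ≤ U8 f →
      ∃ (u v w : G → ℂ) (M : LinearMap.BilinForm (ZMod 2) G),
        (∀ x, ‖u x‖ ≤ 1) ∧ (∀ x, ‖v x‖ ≤ 1) ∧ (∀ x, ‖w x‖ ≤ 1) ∧
        c ≤ ‖𝔼 x : G, 𝔼 y : G, f x y * u x * v y * w (x + y) * ((sg (M x y) : ℝ) : ℂ)‖

/-- Average over the squares with difference in `H`. -/
noncomputable def TH {G : Type} [AddCommGroup G] [Module (ZMod 2) G] [Fintype G]
    (H : Submodule (ZMod 2) G) (f0 f1 f2 f3 : G → G → ℝ) : ℝ :=
  𝔼 d : H, 𝔼 x : G, 𝔼 y : G,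
    f0 x y * f1 (x + d) y * f2 x (y + d) * f3 (x + d) (y + d)

/-- Average over the squares in the product of two cosets of `H`, difference in `H`. -/
noncomputable def TL {G : Type} [AddCommGroup G] [Module (ZMod 2) G] [Fintype G]
    (H : Submodule (ZMod 2) G) (f : G → G → ℝ) (x₀ y₀ : G) : ℝ :=
  𝔼 h : H, 𝔼 k : H, 𝔼 d : H,
    f (x₀ + h) (y₀ + k) * f (x₀ + h + d) (y₀ + k) * f (x₀ + h) (y₀ + k + d) *
      f (x₀ + h + d) (y₀ + k + d)

/-- Average over the product of two cosets of `H`. -/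
noncomputable def ML {G : Type} [AddCommGroup G] [Module (ZMod 2) G] [Fintype G]
    (H : Submodule (ZMod 2) G) (f : G → G → ℝ) (x₀ y₀ : G) : ℝ :=
  𝔼 h : H, 𝔼 k : H, f (x₀ + h) (y₀ + k)

/-- Index of `H`, as a real number. -/
noncomputable def idx {G : Type} [AddCommGroup G] [Module (ZMod 2) G] [Fintype G]
    (H : Submodule (ZMod 2) G) : ℝ := (Fintype.card G : ℝ) / (Fintype.card H : ℝ)

/-- The radical of the alternating form attached to `L`. -/
def rad {G : Type} [AddCommGroup G] [Module (ZMod 2) G]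
    (L : LinearMap.BilinForm (ZMod 2) G) : Submodule (ZMod 2) G where
  carrier := {x | ∀ y, L x y = L y x}
  add_mem' := by
    intro a b ha hb y
    simp only [Set.mem_ofPred_eq] at ha hb
    simp [ha y, hb y]
  zero_mem' := by intro y; simp
  smul_mem' := by
    intro c x hx y
    simp only [Set.mem_ofPred_eq] at hx
    simp [hx y]

/-- A factor: a labelling of the group with `K` labels, used for `x`, `y` and `x+y`, together
with `k` bilinear forms evaluated at `(x,y)`. -/
structure Fac (G : Type) [AddCommGroup G] [Module (ZMod 2) G] where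
  K : ℕ
  k : ℕ
  lam : G → Fin K
  M : Fin k → LinearMap.BilinForm (ZMod 2) G

section Fac

variable {G : Type} [AddCommGroup G] [Module (ZMod 2) G]

/-- The code of a point. -/
def Fac.code (B : Fac G) (x y : G) :
    Fin B.K × Fin B.K × Fin B.K × (Fin B.k → ZMod 2) :=
  (B.lam x, B.lam y, B.lam (x + y), fun i => B.M i x y)

/-- `B'` refines `B`. -/
def Fac.Ref (B' B : Fac G) : Prop :=
  ∀ x y x' y', B'.code x y = B'.code x' y' → B.code x y = B.code x' y'

/-- The labels determine the diagonal values of the forms. -/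
def Fac.TC (B : Fac G) : Prop :=
  ∀ x x', B.lam x = B.lam x' → ∀ i, B.M i x x = B.M i x' x'

/-- Linear combination of the forms. -/
def Fac.comb (B : Fac G) (γ : Fin B.k → ZMod 2) : LinearMap.BilinForm (ZMod 2) G :=
  ∑ i, γ i • B.M i

/-- Complexity. -/
def Fac.cx (B : Fac G) : ℕ := B.K + B.k

variable [Fintype G]

/-- High rank. -/
def Fac.HR (B : Fac G) (ν : ℝ) : Prop :=
  ∀ γ : Fin B.k → ZMod 2, γ ≠ 0 →
    (Fintype.card (rad (B.comb γ)) : ℝ) ≤ ν * (Fintype.card G : ℝ)

end Fac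

/-- Conditional expectation with respect to the partition into the fibres of `c`. -/
noncomputable def ce {Ω γ : Type} [Fintype Ω] [DecidableEq γ] (c : Ω → γ) (f : Ω → ℝ) (p : Ω) :
    ℝ :=
  (∑ q ∈ univ.filter (fun q => c q = c p), f q) /
    ((univ.filter (fun q => c q = c p)).card : ℝ)

/-- Conditional expectation on a factor. -/
noncomputable def Fac.ce {G : Type} [AddCommGroup G] [Module (ZMod 2) G] [Fintype G]
    (B : Fac G) (f : G → G → ℝ) (x y : G) : ℝ :=
  SQ.ce (fun p : G × G => B.code p.1 p.2) (fun p : G × G => f p.1 p.2) (x, y)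

/-- Energy of a factor. -/
noncomputable def Fac.en {G : Type} [AddCommGroup G] [Module (ZMod 2) G] [Fintype G]
    (B : Fac G) (f : G → G → ℝ) : ℝ := 𝔼 x : G, 𝔼 y : G, (B.ce f x y) ^ 2

/-- Density of a label on a coset of `H`. -/
noncomputable def dens {G : Type} [AddCommGroup G] [Module (ZMod 2) G] [Fintype G] {K : ℕ}
    (H : Submodule (ZMod 2) G) (lam : G → Fin K) (x₀ : G) (l : Fin K) : ℝ :=
  𝔼 h : H, if lam (x₀ + h) = l then (1 : ℝ) else 0

/-- All nontrivial Fourier coefficients of `g` are at most `κ`. -/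
def Reg {V : Type} [AddCommGroup V] [Module (ZMod 2) V] [Fintype V] (κ : ℝ) (g : V → ℝ) : Prop :=
  ∀ χ : Module.Dual (ZMod 2) V, χ ≠ 0 → |𝔼 v : V, g v * sg (χ v)| ≤ κ

/-- The label classes are Fourier regular on the coset `x₀ + H`. -/
def Good {G : Type} [AddCommGroup G] [Module (ZMod 2) G] [Fintype G] {K : ℕ}
    (H : Submodule (ZMod 2) G) (lam : G → Fin K) (κ : ℝ) (x₀ : G) : Prop :=
  ∀ l : Fin K, Reg κ (fun h : H => if lam (x₀ + h) = l then (1 : ℝ) else 0)

/-- The label model of the square count. -/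
noncomputable def TM {A : Type} [Fintype A] {k : ℕ} (p q r : A → ℝ)
    (τ : A → (Fin k → ZMod 2)) (F : A → A → A → (Fin k → ZMod 2) → ℝ) : ℝ :=
  ∑ X : A, ∑ X' : A, ∑ Y : A, ∑ Y' : A, ∑ Z : A, ∑ Z' : A,
    p X * p X' * q Y * q Y' * r Z * r Z' *
      𝔼 m₁ : Fin k → ZMod 2, 𝔼 m₂ : Fin k → ZMod 2, 𝔼 m₃ : Fin k → ZMod 2,
        F X Y Z m₁ * F X' Y Z' m₂ * F X Y' Z' m₃ *
          F X' Y' Z (m₁ + m₂ + m₃ + τ X + τ X' + τ Y + τ Y' + τ Z + τ Z')

/-- The label model of the density. -/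
noncomputable def MM {A : Type} [Fintype A] {k : ℕ} (p q r : A → ℝ)
    (F : A → A → A → (Fin k → ZMod 2) → ℝ) : ℝ :=
  ∑ X : A, ∑ Y : A, ∑ Z : A, p X * q Y * r Z * 𝔼 m : Fin k → ZMod 2, F X Y Z m

end Pool.Agent.H81.SQ
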