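import Pool.Agent.H45.SQ.Targets2

/-!
# BACK: the backward step
-/

namespace Pool.Agent.H81.SQB

open Finset Pool.Agent.H45.SQ
open scoped BigOperators ComplexConjugate

section

variable {G : Type} [AddCommGroup G] [Fintype G] [Module (ZMod 2) G]

theorem add_self2 (x : G) : x + x = 0 := by
  have h : (2 : ZMod 2) • x = 0 := by
    have : (2 : ZMod 2) = 0 := by decide
    rw [this, zero_smul]
  rwa [two_smul] at h

theorem expect_shift {M : Type} [AddCommMonoid M] [Module ℚ≥0 M] (F : G → M) (a : G) :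
    𝔼 x : G, F (x + a) = 𝔼 x : G, F x :=
  Fintype.expect_equiv (Equiv.addRight a) _ _ (fun x => rfl)

theorem norm_expect_le' {I : Type} [Fintype I] (t : I → ℂ) : ‖𝔼 i, t i‖ ≤ 𝔼 i, ‖t i‖ := by
  rw [Fintype.expect_eq_sum_div_card, Fintype.expect_eq_sum_div_card, norm_div]
  have : ‖((Fintype.card I : ℕ) : ℂ)‖ = (Fintype.card I : ℝ) := by simp
  rw [this]
  exact div_le_div_of_nonneg_right (norm_sum_le _ _) (Nat.cast_nonneg _)

theorem exists_ge {I : Type} [Fintype I] [Nonempty I] (t : I → ℝ) (c : ℝ) (h : c ≤ 𝔼 i, t i) :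
    ∃ i, c ≤ t i := by
  by_contra hcon
  push Not at hcon
  have h1 : 𝔼 i, t i < c := by
    rw [Fintype.expect_eq_sum_div_card, div_lt_iff₀ (by exact_mod_cast Fintype.card_pos)]
    have h2 : ∑ i, t i < ∑ _i : I, c := Finset.sum_lt_sum_of_nonempty univ_nonempty
      (fun i _ => hcon i)
    simpa [mul_comm] using h2
  linarith

theorem sq_expect_le' {I : Type} [Fintype I] (t : I → ℝ) : (𝔼 i, t i) ^ 2 ≤ 𝔼 i, t i ^ 2 := by
  rcases isEmpty_or_nonempty I with h | h
  · simp
  · have h1 : (𝔼 i, (t i - 𝔼 j, t j) ^ 2) = (𝔼 i, t i ^ 2) - (𝔼 i, t i) ^ 2 := by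
      have : ∀ i, (t i - 𝔼 j, t j) ^ 2 = t i ^ 2 - 2 * (𝔼 j, t j) * t i + (𝔼 j, t j) ^ 2 := by
        intro i; ring
      rw [Finset.expect_congr rfl (fun i _ => this i), Finset.expect_add_distrib,
        Finset.expect_sub_distrib, ← Finset.mul_expect, Finset.expect_const univ_nonempty]
      ring
    have h2 : 0 ≤ 𝔼 i, (t i - 𝔼 j, t j) ^ 2 := Finset.expect_nonneg (fun i _ => sq_nonneg _)
    linarith

theorem re_expect {I : Type} [Fintype I] (t : I → ℂ) : (𝔼 i, t i).re = 𝔼 i, (t i).re := by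
  rw [Fintype.expect_eq_sum_div_card, Fintype.expect_eq_sum_div_card]
  have : ((Fintype.card I : ℕ) : ℂ) = (((Fintype.card I : ℕ) : ℝ) : ℂ) := by simp
  rw [this, Complex.div_ofReal_re, Complex.re_sum]

theorem conj_expect {I : Type} [Fintype I] (t : I → ℂ) : conj (𝔼 i, t i) = 𝔼 i, conj (t i) := by
  rw [Fintype.expect_eq_sum_div_card, Fintype.expect_eq_sum_div_card, map_div₀, map_sum]
  simp

theorem sg_cases (a : ZMod 2) : sg a = 1 ∨ sg a = -1 := by
  unfold sg; split <;> simp

theorem norm_sg (a : ZMod 2) : ‖sg a‖ = 1 := by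
  rcases sg_cases a with h | h <;> simp [h]

theorem conj_sg (a : ZMod 2) : conj (sg a) = sg a := by
  rcases sg_cases a with h | h <;> simp [h]

theorem sg_add' (a b : ZMod 2) : sg (a + b) = sg a * sg b := by
  revert a b
  have h0 : sg 0 = 1 := by simp [sg]
  have h1 : sg 1 = -1 := by simp [sg]
  intro a b
  fin_cases a <;> fin_cases b
  · show sg (0 + 0) = sg 0 * sg 0
    rw [add_zero, h0]; ring
  · show sg (0 + 1) = sg 0 * sg 1
    rw [zero_add, h0, h1]; ring
  · show sg (1 + 0) = sg 1 * sg 0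
    rw [add_zero, h0, h1]; ring
  · show sg (1 + 1) = sg 1 * sg 1
    have : (1 : ZMod 2) + 1 = 0 := by decide
    rw [this, h0, h1]; ring

/-- The quadratic form of `rho f` as an average. -/
theorem qf_rho (f : G → G → ℂ) (s : G) (ψ : G → ℂ) :
    (Fintype.card G : ℝ)⁻¹ * qf (mat (rho f) s) ψ =
      (𝔼 y : G, 𝔼 y' : G, 𝔼 c : G, conj (ψ y) * ψ y' *
        (f (y + c) y * conj (f (y' + c) y') * conj (f (y + c) (y + s)) *
          f (y' + c) (y' + s))).re := by
  have hr : ∀ y y' : G, rho f (y + y') y (y + s) = 𝔼 c : G,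
      (f (y + c) y * conj (f (y' + c) y') * conj (f (y + c) (y + s)) * f (y' + c) (y' + s)) := by
    intro y y'
    unfold rho
    have e1 : y + (y + y') = y' := by rw [← add_assoc, add_self2, zero_add]
    have e2 : y + s + (y + y') = y' + s := by
      have : y + s + (y + y') = (y + y) + (y' + s) := by abel
      rw [this, add_self2, zero_add]
    rw [e1, e2]
    rw [← expect_shift (fun x => (f x y * conj (f (x + (y + y')) y')) *
      conj (f x (y + s) * conj (f (x + (y + y')) (y' + s)))) y]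
    apply Finset.expect_congr rfl
    intro c _
    have e3 : c + y + (y + y') = y' + c := by
      have : c + y + (y + y') = (y + y) + (y' + c) := by abel
      rw [this, add_self2, zero_add]
    rw [e3, add_comm c y, map_mul, Complex.conj_conj]
    ring
  have h1 : (Fintype.card G : ℝ)⁻¹ * qf (mat (rho f) s) ψ =
      (𝔼 y : G, 𝔼 y' : G, conj (ψ y) * ψ y' * rho f (y + y') y (y + s)).re := by
    rw [re_expect]
    unfold qf
    rw [Complex.re_sum, Fintype.expect_eq_sum_div_card, div_eq_inv_mul]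
    congr 1
    apply Finset.sum_congr rfl
    intro y _
    congr 1
    unfold Matrix.mulVec dotProduct mat
    rw [Fintype.expect_eq_sum_div_card, Finset.mul_sum, Finset.sum_div]
    apply Finset.sum_congr rfl
    intro y' _
    rw [div_eq_inv_mul]
    ring
  rw [h1]
  congr 1
  apply Finset.expect_congr rfl
  intro y _
  apply Finset.expect_congr rfl
  intro y' _
  rw [hr, Finset.mul_expect]

/-- Change of variables for four averages. -/
theorem change4 (F : G → G → G → G → ℂ) :
    𝔼 s : G, 𝔼 y : G, 𝔼 y' : G, 𝔼 c : G, F s y y' c =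
      𝔼 x' : G, 𝔼 z' : G, 𝔼 x : G, 𝔼 y : G, F (z' + (x + y)) y (x' + (x + y)) (x + y) := by
  calc 𝔼 s : G, 𝔼 y : G, 𝔼 y' : G, 𝔼 c : G, F s y y' c
      = 𝔼 y : G, 𝔼 s : G, 𝔼 y' : G, 𝔼 c : G, F s y y' c := Finset.expect_comm _ _ _
    _ = 𝔼 y : G, 𝔼 s : G, 𝔼 c : G, 𝔼 y' : G, F s y y' c :=
        Finset.expect_congr rfl (fun y _ => Finset.expect_congr rfl
          (fun s _ => Finset.expect_comm _ _ _))
    _ = 𝔼 y : G, 𝔼 c : G, 𝔼 s : G, 𝔼 y' : G, F s y y' c :=
        Finset.expect_congr rfl (fun y _ => Finset.expect_comm _ _ _)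
    _ = 𝔼 y : G, 𝔼 x : G, 𝔼 s : G, 𝔼 y' : G, F s y y' (x + y) :=
        Finset.expect_congr rfl (fun y _ =>
          (expect_shift (fun c => 𝔼 s : G, 𝔼 y' : G, F s y y' c) y).symm)
    _ = 𝔼 y : G, 𝔼 x : G, 𝔼 z' : G, 𝔼 x' : G, F (z' + (x + y)) y (x' + (x + y)) (x + y) := by
        apply Finset.expect_congr rfl
        intro y _
        apply Finset.expect_congr rfl
        intro x _
        rw [← expect_shift (fun s => 𝔼 y' : G, F s y y' (x + y)) (x + y)]
        apply Finset.expect_congr rfl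
        intro z' _
        exact (expect_shift (fun y' => F (z' + (x + y)) y y' (x + y)) (x + y)).symm
    _ = 𝔼 x : G, 𝔼 y : G, 𝔼 z' : G, 𝔼 x' : G, F (z' + (x + y)) y (x' + (x + y)) (x + y) :=
        Finset.expect_comm _ _ _
    _ = 𝔼 x : G, 𝔼 y : G, 𝔼 x' : G, 𝔼 z' : G, F (z' + (x + y)) y (x' + (x + y)) (x + y) :=
        Finset.expect_congr rfl (fun x _ => Finset.expect_congr rfl
          (fun y _ => Finset.expect_comm _ _ _))
    _ = 𝔼 x : G, 𝔼 x' : G, 𝔼 y : G, 𝔼 z' : G, F (z' + (x + y)) y (x' + (x + y)) (x + y) :=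
        Finset.expect_congr rfl (fun x _ => Finset.expect_comm _ _ _)
    _ = 𝔼 x' : G, 𝔼 x : G, 𝔼 y : G, 𝔼 z' : G, F (z' + (x + y)) y (x' + (x + y)) (x + y) :=
        Finset.expect_comm _ _ _
    _ = 𝔼 x' : G, 𝔼 x : G, 𝔼 z' : G, 𝔼 y : G, F (z' + (x + y)) y (x' + (x + y)) (x + y) :=
        Finset.expect_congr rfl (fun x _ => Finset.expect_congr rfl
          (fun y _ => Finset.expect_comm _ _ _))
    _ = _ := Finset.expect_congr rfl (fun x _ => Finset.expect_comm _ _ _)

end

theorem back : T_BACK := by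
  intro K Λ η hK hη
  have hΛ' : (0 : ℝ) < |Λ| + 1 := by positivity
  refine ⟨η ^ 2 / (|Λ| + 1) / K ^ 4, by positivity, ?_⟩
  intro G _ _ _ _ f e X g a b d m hf he hX hg ha hb hd hdom hη'
  haveI : Nonempty G := ⟨0⟩
  -- step 1: choose the third row
  have h1 : 𝔼 s : G, 𝔼 t : G, a s * b t * d (s + t) * sg (m s t) *
        Tri s t (e s) (X t) (g (s + t)) =
      𝔼 z : G, 𝔼 s : G, a s * 𝔼 y : G, e s y * (sg (m y (y + s)) *
        (b (y + s + z) * sg (m (y + s) (y + s)) * sg (m (y + s) z) * X (y + s + z) (y + s)) *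
        (d (y + z) * sg (m y z) * g (y + z) z)) := by
    have e1 : ∀ s : G, 𝔼 t : G, a s * b t * d (s + t) * sg (m s t) *
        Tri s t (e s) (X t) (g (s + t)) =
        𝔼 z : G, a s * 𝔼 y : G, e s y * (sg (m y (y + s)) *
        (b (y + s + z) * sg (m (y + s) (y + s)) * sg (m (y + s) z) * X (y + s + z) (y + s)) *
        (d (y + z) * sg (m y z) * g (y + z) z)) := by
      intro s
      calc 𝔼 t : G, a s * b t * d (s + t) * sg (m s t) * Tri s t (e s) (X t) (g (s + t))
          = 𝔼 t : G, 𝔼 y : G, a s * b t * d (s + t) * sg (m s t) *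
            (e s y * X t (y + s) * g (s + t) (y + s + t)) := by
            apply Finset.expect_congr rfl
            intro t _
            unfold Tri
            rw [Finset.mul_expect]
        _ = 𝔼 y : G, 𝔼 t : G, a s * b t * d (s + t) * sg (m s t) *
            (e s y * X t (y + s) * g (s + t) (y + s + t)) := Finset.expect_comm _ _ _
        _ = 𝔼 y : G, 𝔼 z : G, a s * (e s y * (sg (m y (y + s)) *
            (b (y + s + z) * sg (m (y + s) (y + s)) * sg (m (y + s) z) * X (y + s + z) (y + s)) *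
            (d (y + z) * sg (m y z) * g (y + z) z))) := by
            apply Finset.expect_congr rfl
            intro y _
            rw [← expect_shift (fun t => a s * b t * d (s + t) * sg (m s t) *
              (e s y * X t (y + s) * g (s + t) (y + s + t))) (y + s)]
            apply Finset.expect_congr rfl
            intro z _
            have c1 : z + (y + s) = y + s + z := by abel
            have c2 : s + (y + s + z) = y + z := by
              have : s + (y + s + z) = (s + s) + (y + z) := by abel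
              rw [this, add_self2, zero_add]
            have c3 : y + s + (y + s + z) = z := by
              have : y + s + (y + s + z) = (y + s + (y + s)) + z := by abel
              rw [this, add_self2, zero_add]
            have c4 : sg (m s (y + s + z)) =
                sg (m y (y + s)) * sg (m (y + s) (y + s)) * sg (m (y + s) z) * sg (m y z) := by
              rw [← sg_add', ← sg_add', ← sg_add']
              congr 1
              have hs : s = y + (y + s) := by rw [← add_assoc, add_self2, zero_add]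
              have : m s (y + s + z) = m (y + (y + s)) (y + s + z) := by rw [← hs]
              rw [this]
              simp only [map_add, LinearMap.add_apply]
              ring
            simp only [c1, c2, c3]
            rw [c4]
            ring
        _ = 𝔼 z : G, 𝔼 y : G, a s * (e s y * (sg (m y (y + s)) *
            (b (y + s + z) * sg (m (y + s) (y + s)) * sg (m (y + s) z) * X (y + s + z) (y + s)) *
            (d (y + z) * sg (m y z) * g (y + z) z))) := Finset.expect_comm _ _ _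
        _ = _ := by
            apply Finset.expect_congr rfl
            intro z _
            rw [Finset.mul_expect]
    rw [Finset.expect_congr rfl (fun s _ => e1 s)]
    exact Finset.expect_comm _ _ _
  rw [h1] at hη'
  obtain ⟨z, hz⟩ := exists_ge _ _ (le_trans hη' (norm_expect_le' _))
  set β : G → ℂ := fun w => b (w + z) * sg (m w w) * sg (m w z) * X (w + z) w with hβ_def
  set γ : G → ℂ := fun y => d (y + z) * sg (m y z) * g (y + z) z with hγ_def
  have hβ : ∀ w, ‖β w‖ ≤ K := by
    intro w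
    simp only [hβ_def, norm_mul, norm_sg, mul_one]
    calc ‖b (w + z)‖ * ‖X (w + z) w‖ ≤ 1 * K :=
          mul_le_mul (hb _) (hX _ _) (norm_nonneg _) (by norm_num)
      _ = K := one_mul K
  have hγ : ∀ w, ‖γ w‖ ≤ K := by
    intro w
    simp only [hγ_def, norm_mul, norm_sg, mul_one]
    calc ‖d (w + z)‖ * ‖g (w + z) z‖ ≤ 1 * K :=
          mul_le_mul (hd _) (hg _ _) (norm_nonneg _) (by norm_num)
      _ = K := one_mul K
  set ψ : G → G → ℂ := fun s y => conj (sg (m y (y + s)) * β (y + s) * γ y) with hψ_def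
  have hz2 : η ≤ 𝔼 s : G, ‖𝔼 y : G, conj (e s y) * ψ s y‖ := by
    refine le_trans hz (le_trans (norm_expect_le' _) ?_)
    apply Finset.expect_le_expect
    intro s _
    rw [norm_mul]
    have hsame : ‖𝔼 y : G, e s y * (sg (m y (y + s)) *
        (b (y + s + z) * sg (m (y + s) (y + s)) * sg (m (y + s) z) * X (y + s + z) (y + s)) *
        (d (y + z) * sg (m y z) * g (y + z) z))‖ = ‖𝔼 y : G, conj (e s y) * ψ s y‖ := by
      have : 𝔼 y : G, conj (e s y) * ψ s y = conj (𝔼 y : G, e s y * (sg (m y (y + s)) *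
        (b (y + s + z) * sg (m (y + s) (y + s)) * sg (m (y + s) z) * X (y + s + z) (y + s)) *
        (d (y + z) * sg (m y z) * g (y + z) z))) := by
        rw [conj_expect]
        apply Finset.expect_congr rfl
        intro y _
        simp only [hψ_def, hβ_def, hγ_def, map_mul]
      rw [this, Complex.norm_conj]
    rw [hsame]
    calc ‖a s‖ * ‖𝔼 y : G, conj (e s y) * ψ s y‖ ≤ 1 * ‖𝔼 y : G, conj (e s y) * ψ s y‖ :=
          mul_le_mul_of_nonneg_right (ha s) (norm_nonneg _)
      _ = _ := one_mul _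
  -- the average of the quadratic forms
  set F : G → G → G → G → ℂ := fun s y y' c => conj (ψ s y) * ψ s y' *
        (f (y + c) y * conj (f (y' + c) y') * conj (f (y + c) (y + s)) *
          f (y' + c) (y' + s)) with hF_def
  have h3 : η ^ 2 ≤ Λ * (𝔼 s : G, 𝔼 y : G, 𝔼 y' : G, 𝔼 c : G, F s y y' c).re := by
    calc η ^ 2 ≤ (𝔼 s : G, ‖𝔼 y : G, conj (e s y) * ψ s y‖) ^ 2 :=
          pow_le_pow_left₀ hη.le hz2 2
      _ ≤ 𝔼 s : G, ‖𝔼 y : G, conj (e s y) * ψ s y‖ ^ 2 := sq_expect_le' _
      _ ≤ 𝔼 s : G, Λ * ((Fintype.card G : ℝ)⁻¹ * qf (mat (rho f) s) (ψ s)) :=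
          Finset.expect_le_expect (fun s _ => hdom s (ψ s))
      _ = _ := by
          rw [← Finset.mul_expect, re_expect]
          congr 1
          apply Finset.expect_congr rfl
          intro s _
          rw [qf_rho]
  have h4 : η ^ 2 / (|Λ| + 1) ≤ ‖𝔼 s : G, 𝔼 y : G, 𝔼 y' : G, 𝔼 c : G, F s y y' c‖ := by
    rw [div_le_iff₀ hΛ']
    set A := 𝔼 s : G, 𝔼 y : G, 𝔼 y' : G, 𝔼 c : G, F s y y' c
    have h5 : Λ * A.re ≤ |Λ| * ‖A‖ := by
      calc Λ * A.re ≤ |Λ * A.re| := le_abs_self _
        _ = |Λ| * |A.re| := abs_mul _ _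
        _ ≤ |Λ| * ‖A‖ := mul_le_mul_of_nonneg_left (Complex.abs_re_le_norm A) (abs_nonneg _)
    nlinarith [norm_nonneg A]
  rw [change4] at h4
  obtain ⟨x', hx'⟩ := exists_ge _ _ (le_trans h4 (norm_expect_le' _))
  obtain ⟨z', hz'⟩ := exists_ge _ _ (le_trans hx' (norm_expect_le' _))
  -- the three functions
  set k0 : ℂ := conj (β (x' + z')) * f x' (x' + z') with hk0_def
  set u0 : G → ℂ := fun x => β (x + z') * conj (f x (x + z')) with hu0_def
  set v0 : G → ℂ := fun y => γ y * sg (m y z') with hv0_def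
  set w0 : G → ℂ := fun w => sg (m (x' + w) (x' + z')) * conj (γ (x' + w)) *
    conj (f x' (x' + w)) with hw0_def
  have hinner : 𝔼 x : G, 𝔼 y : G, F (z' + (x + y)) y (x' + (x + y)) (x + y) =
      k0 * 𝔼 x : G, 𝔼 y : G, f x y * u0 x * v0 y * w0 (x + y) * sg (m y x) := by
    rw [Finset.mul_expect]
    apply Finset.expect_congr rfl
    intro x _
    rw [Finset.mul_expect]
    apply Finset.expect_congr rfl
    intro y _
    have c1 : y + (z' + (x + y)) = x + z' := by
      have : y + (z' + (x + y)) = (y + y) + (x + z') := by abel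
      rw [this, add_self2, zero_add]
    have c2 : x' + (x + y) + (z' + (x + y)) = x' + z' := by
      have : x' + (x + y) + (z' + (x + y)) = ((x + y) + (x + y)) + (x' + z') := by abel
      rw [this, add_self2, zero_add]
    have c3 : y + (x + y) = x := by
      have : y + (x + y) = (y + y) + x := by abel
      rw [this, add_self2, zero_add]
    have c4 : x' + (x + y) + (x + y) = x' := by
      rw [add_assoc, add_self2, add_zero]
    simp only [hF_def, hψ_def, c1, c2, c3, c4, map_mul, Complex.conj_conj, conj_sg,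
      hk0_def, hu0_def, hv0_def, hw0_def]
    have c5 : sg (m y (x + z')) = sg (m y x) * sg (m y z') := by
      rw [map_add, sg_add']
    rw [c5]
    ring
  rw [hinner, norm_mul] at hz'
  have hk0 : ‖k0‖ ≤ K := by
    simp only [hk0_def, norm_mul, Complex.norm_conj]
    calc ‖β (x' + z')‖ * ‖f x' (x' + z')‖ ≤ K * 1 :=
          mul_le_mul (hβ _) (hf _ _) (norm_nonneg _) hK.le
      _ = K := mul_one K
  have hu0 : ∀ x, ‖u0 x‖ ≤ K := by
    intro x
    simp only [hu0_def, norm_mul, Complex.norm_conj]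
    calc ‖β (x + z')‖ * ‖f x (x + z')‖ ≤ K * 1 :=
          mul_le_mul (hβ _) (hf _ _) (norm_nonneg _) hK.le
      _ = K := mul_one K
  have hv0 : ∀ x, ‖v0 x‖ ≤ K := by
    intro x
    simp only [hv0_def, norm_mul, norm_sg, mul_one]
    exact hγ x
  have hw0 : ∀ x, ‖w0 x‖ ≤ K := by
    intro x
    simp only [hw0_def, norm_mul, norm_sg, Complex.norm_conj, one_mul]
    calc ‖γ (x' + x)‖ * ‖f x' (x' + x)‖ ≤ K * 1 :=
          mul_le_mul (hγ _) (hf _ _) (norm_nonneg _) hK.le
      _ = K := mul_one K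
  have hKc : ‖((K : ℝ) : ℂ)‖ = K := by
    rw [Complex.norm_real, Real.norm_eq_abs, abs_of_pos hK]
  refine ⟨fun x => u0 x / (K : ℂ), fun x => v0 x / (K : ℂ), fun x => w0 x / (K : ℂ),
    m.flip, ?_, ?_, ?_, ?_⟩
  · intro x
    rw [norm_div, hKc, div_le_one hK]; exact hu0 x
  · intro x
    rw [norm_div, hKc, div_le_one hK]; exact hv0 x
  · intro x
    rw [norm_div, hKc, div_le_one hK]; exact hw0 x
  · have hKne : (K : ℂ) ≠ 0 := by exact_mod_cast hK.ne'
    have h6 : 𝔼 x : G, 𝔼 y : G, f x y * (u0 x / (K : ℂ)) * (v0 y / (K : ℂ)) *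
        (w0 (x + y) / (K : ℂ)) * sg (m.flip x y) =
        ((K : ℂ) ^ 3)⁻¹ * 𝔼 x : G, 𝔼 y : G, f x y * u0 x * v0 y * w0 (x + y) * sg (m y x) := by
      rw [Finset.mul_expect]
      apply Finset.expect_congr rfl
      intro x _
      rw [Finset.mul_expect]
      apply Finset.expect_congr rfl
      intro y _
      rw [LinearMap.flip_apply]
      field_simp
    rw [h6, norm_mul, norm_inv, norm_pow, hKc]
    set W := ‖𝔼 x : G, 𝔼 y : G, f x y * u0 x * v0 y * w0 (x + y) * sg (m y x)‖ with hW_def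
    have h7 : η ^ 2 / (|Λ| + 1) ≤ K * W :=
      le_trans hz' (mul_le_mul_of_nonneg_right hk0 (norm_nonneg _))
    have h8 : η ^ 2 / (|Λ| + 1) / K ≤ W := by
      rw [div_le_iff₀ hK]; linarith
    calc η ^ 2 / (|Λ| + 1) / K ^ 4 = (K ^ 3)⁻¹ * (η ^ 2 / (|Λ| + 1) / K) := by
          field_simp
      _ ≤ (K ^ 3)⁻¹ * W := mul_le_mul_of_nonneg_left h8 (by positivity)

end Pool.Agent.H81.SQB
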