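import Pool.Agent.H45.SQ.Targets2

/-!
# CUBE: nearly constant modulus and nearly constant cube products
-/

namespace Pool.Agent.H81.SQC

open Finset Pool.Agent.H45.SQ
open scoped BigOperators ComplexConjugate

theorem norm_expect_le2 {I : Type} (S : Finset I) (t : I → ℂ) :
    ‖𝔼 i ∈ S, t i‖ ≤ 𝔼 i ∈ S, ‖t i‖ := by
  rw [Finset.expect_eq_sum_div_card, Finset.expect_eq_sum_div_card, norm_div]
  have : ‖((S.card : ℕ) : ℂ)‖ = (S.card : ℝ) := by simp
  rw [this]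
  exact div_le_div_of_nonneg_right (norm_sum_le _ _) (Nat.cast_nonneg _)

theorem norm_cj (k : ℕ) (z : ℂ) : ‖cj k z‖ = ‖z‖ := by
  unfold cj; split
  · rfl
  · exact Complex.norm_conj z

theorem cj_sub (k : ℕ) (z w : ℂ) : cj k z - cj k w = cj k (z - w) := by
  unfold cj; split
  · rfl
  · rw [map_sub]

theorem cj_real_mul (k : ℕ) (t : ℝ) (w : ℂ) : cj k ((t : ℂ) * w) = (t : ℂ) * cj k w := by
  unfold cj; split
  · rfl
  · rw [map_mul, Complex.conj_ofReal]

/-- Telescoping for products. -/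
theorem prod_sub_prod {I : Type} [DecidableEq I] (S : Finset I) (x y : I → ℂ) (B : ℝ)
    (hB : 1 ≤ B) (hx : ∀ i, ‖x i‖ ≤ B) (hy : ∀ i, ‖y i‖ ≤ B) :
    ‖∏ i ∈ S, x i - ∏ i ∈ S, y i‖ ≤ B ^ S.card * ∑ i ∈ S, ‖x i - y i‖ := by
  induction S using Finset.induction_on with
  | empty => simp
  | insert a S ha ih =>
    rw [Finset.prod_insert ha, Finset.prod_insert ha, Finset.sum_insert ha,
      Finset.card_insert_of_notMem ha]
    have hB0 : 0 ≤ B := by linarith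
    have hpy : ‖∏ i ∈ S, y i‖ ≤ B ^ S.card := by
      rw [norm_prod]
      calc ∏ i ∈ S, ‖y i‖ ≤ ∏ _i ∈ S, B :=
            Finset.prod_le_prod (fun i _ => norm_nonneg _) (fun i _ => hy i)
        _ = B ^ S.card := by simp
    have e1 : x a * ∏ i ∈ S, x i - y a * ∏ i ∈ S, y i =
        x a * (∏ i ∈ S, x i - ∏ i ∈ S, y i) + (x a - y a) * ∏ i ∈ S, y i := by ring
    rw [e1]
    refine le_trans (norm_add_le _ _) ?_
    rw [norm_mul, norm_mul]
    have h1 : ‖x a‖ * ‖∏ i ∈ S, x i - ∏ i ∈ S, y i‖ ≤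
        B * (B ^ S.card * ∑ i ∈ S, ‖x i - y i‖) :=
      mul_le_mul (hx a) ih (norm_nonneg _) hB0
    have h2 : ‖x a - y a‖ * ‖∏ i ∈ S, y i‖ ≤ ‖x a - y a‖ * B ^ S.card :=
      mul_le_mul_of_nonneg_left hpy (norm_nonneg _)
    have h3 : ‖x a - y a‖ * B ^ S.card ≤ ‖x a - y a‖ * B ^ (S.card + 1) :=
      mul_le_mul_of_nonneg_left (pow_le_pow_right₀ hB (by omega)) (norm_nonneg _)
    calc ‖x a‖ * ‖∏ i ∈ S, x i - ∏ i ∈ S, y i‖ + ‖x a - y a‖ * ‖∏ i ∈ S, y i‖
        ≤ B * (B ^ S.card * ∑ i ∈ S, ‖x i - y i‖) + ‖x a - y a‖ * B ^ (S.card + 1) := by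
          linarith
      _ = B ^ (S.card + 1) * (‖x a - y a‖ + ∑ i ∈ S, ‖x i - y i‖) := by ring

/-- Telescoping for the eight vertices of a cube. -/
theorem cube_sub (x y : Fin 2 → Fin 2 → Fin 2 → ℂ) (B : ℝ) (hB : 1 ≤ B)
    (hx : ∀ i j k, ‖x i j k‖ ≤ B) (hy : ∀ i j k, ‖y i j k‖ ≤ B) :
    ‖∏ i, ∏ j, ∏ k, x i j k - ∏ i, ∏ j, ∏ k, y i j k‖ ≤
      B ^ 8 * ∑ i, ∑ j, ∑ k, ‖x i j k - y i j k‖ := by
  have h := prod_sub_prod (Finset.univ : Finset (Fin 2 × Fin 2 × Fin 2))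
    (fun p => x p.1 p.2.1 p.2.2) (fun p => y p.1 p.2.1 p.2.2) B hB
    (fun p => hx _ _ _) (fun p => hy _ _ _)
  simp only [Fintype.prod_prod_type, Fintype.sum_prod_type] at h
  have hc : (Finset.univ : Finset (Fin 2 × Fin 2 × Fin 2)).card = 8 := by
    simp
  rw [hc] at h
  exact h

section

variable {G : Type} [AddCommGroup G] [Fintype G] [DecidableEq G] [Module (ZMod 2) G]

theorem hs_nonempty (H : Submodule (ZMod 2) G) : (hs H).Nonempty := by
  classical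
  refine ⟨0, ?_⟩
  unfold hs
  simp

theorem mem_hs (H : Submodule (ZMod 2) G) (x : G) : x ∈ hs H ↔ x ∈ H := by
  classical
  unfold hs
  simp

theorem pi2 {M : Type} [AddCommMonoid M] [Module ℚ≥0 M] (S : Finset G) (T : (Fin 2 → G) → M) :
    𝔼 a ∈ Fintype.piFinset (fun _ : Fin 2 => S), T a = 𝔼 x ∈ S, 𝔼 y ∈ S, T ![x, y] := by
  rw [← Finset.expect_product' S S (fun x y => T ![x, y])]
  apply Finset.expect_equiv (finTwoArrowEquiv G)
  · intro a
    simp [Fintype.mem_piFinset, Fin.forall_fin_two]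
  · intro a _
    congr 1
    funext i
    fin_cases i <;> rfl

theorem pi2_apply {M : Type} [AddCommMonoid M] [Module ℚ≥0 M] (S : Finset G) (hS : S.Nonempty)
    (F : G → M) (i : Fin 2) :
    𝔼 a ∈ Fintype.piFinset (fun _ : Fin 2 => S), F (a i) = 𝔼 x ∈ S, F x := by
  rw [pi2 S (fun a => F (a i))]
  fin_cases i
  · simp only [Fin.zero_eta, Matrix.cons_val_zero]
    exact Finset.expect_congr rfl (fun x _ => Finset.expect_const hS _)
  · simp only [Fin.mk_one, Matrix.cons_val_one]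
    exact Finset.expect_const hS _

theorem hs_shift {M : Type} [AddCommMonoid M] [Module ℚ≥0 M] (H : Submodule (ZMod 2) G)
    (F : G → M) (a : G) (ha : a ∈ hs H) : 𝔼 x ∈ hs H, F (x + a) = 𝔼 x ∈ hs H, F x := by
  rw [mem_hs] at ha
  apply Finset.expect_equiv (Equiv.addRight a)
  · intro x
    rw [mem_hs, mem_hs]
    simp only [Equiv.coe_addRight]
    exact (H.add_mem_iff_left ha).symm
  · intro x _
    rfl

/-- Each vertex of the random cube is uniform. -/
theorem vertex {M : Type} [AddCommMonoid M] [Module ℚ≥0 M] (H : Submodule (ZMod 2) G)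
    (t : G → G → M) (i j k : Fin 2) :
    𝔼 a ∈ Fintype.piFinset (fun _ : Fin 2 => hs H),
      𝔼 b ∈ Fintype.piFinset (fun _ : Fin 2 => hs H),
        𝔼 r ∈ Fintype.piFinset (fun _ : Fin 2 => hs H), t (a i + b j) (b j + r k) =
      𝔼 h ∈ hs H, 𝔼 k ∈ hs H, t h k := by
  have hne := hs_nonempty H
  rw [pi2_apply (hs H) hne (fun x => 𝔼 b ∈ Fintype.piFinset (fun _ : Fin 2 => hs H),
        𝔼 r ∈ Fintype.piFinset (fun _ : Fin 2 => hs H), t (x + b j) (b j + r k)) i]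
  have h1 : ∀ x, 𝔼 b ∈ Fintype.piFinset (fun _ : Fin 2 => hs H),
        𝔼 r ∈ Fintype.piFinset (fun _ : Fin 2 => hs H), t (x + b j) (b j + r k) =
        𝔼 y ∈ hs H, 𝔼 z ∈ hs H, t (x + y) z := by
    intro x
    rw [pi2_apply (hs H) hne (fun y => 𝔼 r ∈ Fintype.piFinset (fun _ : Fin 2 => hs H),
      t (x + y) (y + r k)) j]
    apply Finset.expect_congr rfl
    intro y hy
    rw [pi2_apply (hs H) hne (fun z => t (x + y) (y + z)) k]
    rw [← hs_shift H (fun z => t (x + y) z) y hy]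
    apply Finset.expect_congr rfl
    intro z _
    rw [add_comm y z]
  rw [Finset.expect_congr rfl (fun x _ => h1 x)]
  rw [Finset.expect_comm]
  have h2 : ∀ y ∈ hs H, 𝔼 x ∈ hs H, 𝔼 z ∈ hs H, t (x + y) z = 𝔼 h ∈ hs H, 𝔼 k ∈ hs H, t h k := by
    intro y hy
    exact hs_shift H (fun x => 𝔼 z ∈ hs H, t x z) y hy
  rw [Finset.expect_congr rfl h2]
  exact Finset.expect_const hne _

/-- The cube product. -/
noncomputable def CP (c : G → G → ℂ) (a b r : Fin 2 → G) : ℂ :=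
  ∏ i : Fin 2, ∏ j : Fin 2, ∏ k : Fin 2,
    cj (i.val + j.val + k.val) (c (a i + b j) (b j + r k))

/-- Average over the cubes. -/
noncomputable def EC (H : Submodule (ZMod 2) G) (T : (Fin 2 → G) → (Fin 2 → G) → (Fin 2 → G) → ℝ) :
    ℝ :=
  𝔼 a ∈ Fintype.piFinset (fun _ : Fin 2 => hs H),
    𝔼 b ∈ Fintype.piFinset (fun _ : Fin 2 => hs H),
      𝔼 r ∈ Fintype.piFinset (fun _ : Fin 2 => hs H), T a b r

theorem EC_mono (H : Submodule (ZMod 2) G) (T T' : (Fin 2 → G) → (Fin 2 → G) → (Fin 2 → G) → ℝ)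
    (h : ∀ a b r, T a b r ≤ T' a b r) : EC H T ≤ EC H T' :=
  Finset.expect_le_expect (fun a _ => Finset.expect_le_expect (fun b _ =>
    Finset.expect_le_expect (fun r _ => h a b r)))

theorem EC_add (H : Submodule (ZMod 2) G) (T T' : (Fin 2 → G) → (Fin 2 → G) → (Fin 2 → G) → ℝ) :
    EC H (fun a b r => T a b r + T' a b r) = EC H T + EC H T' := by
  unfold EC
  simp only [Finset.expect_add_distrib]

theorem EC_mul (H : Submodule (ZMod 2) G) (T : (Fin 2 → G) → (Fin 2 → G) → (Fin 2 → G) → ℝ)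
    (c : ℝ) : EC H (fun a b r => c * T a b r) = c * EC H T := by
  unfold EC
  simp only [Finset.mul_expect]

theorem EC_const (H : Submodule (ZMod 2) G) (c : ℝ) : EC H (fun _ _ _ => c) = c := by
  have hne : (Fintype.piFinset (fun _ : Fin 2 => hs H)).Nonempty := by
    refine ⟨fun _ => 0, ?_⟩
    rw [Fintype.mem_piFinset]
    intro _
    rw [mem_hs]
    exact H.zero_mem
  unfold EC
  rw [Finset.expect_const hne, Finset.expect_const hne, Finset.expect_const hne]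

theorem EC_sum (H : Submodule (ZMod 2) G) (t : G → G → ℝ) :
    EC H (fun a b r => ∑ i, ∑ j, ∑ k, t (a i + b j) (b j + r k)) =
      8 * 𝔼 h ∈ hs H, 𝔼 k ∈ hs H, t h k := by
  have h1 : EC H (fun a b r => ∑ i, ∑ j, ∑ k, t (a i + b j) (b j + r k)) =
      ∑ i : Fin 2, ∑ j : Fin 2, ∑ k : Fin 2, EC H (fun a b r => t (a i + b j) (b j + r k)) := by
    unfold EC
    simp only [Finset.expect_sum_comm]
  rw [h1]
  have h2 : ∀ i j k : Fin 2, EC H (fun a b r => t (a i + b j) (b j + r k)) =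
      𝔼 h ∈ hs H, 𝔼 k ∈ hs H, t h k := fun i j k => vertex H t i j k
  simp only [h2]
  simp
  ring

theorem norm_EC_le (H : Submodule (ZMod 2) G) (T : (Fin 2 → G) → (Fin 2 → G) → (Fin 2 → G) → ℂ) :
    ‖𝔼 a ∈ Fintype.piFinset (fun _ : Fin 2 => hs H),
      𝔼 b ∈ Fintype.piFinset (fun _ : Fin 2 => hs H),
        𝔼 r ∈ Fintype.piFinset (fun _ : Fin 2 => hs H), T a b r‖ ≤
      EC H (fun a b r => ‖T a b r‖) := by
  unfold EC
  refine le_trans (norm_expect_le2 _ _) (Finset.expect_le_expect (fun a _ => ?_))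
  refine le_trans (norm_expect_le2 _ _) (Finset.expect_le_expect (fun b _ => ?_))
  exact norm_expect_le2 _ _

/-- Comparison of two cube averages. -/
theorem oct_sub (H : Submodule (ZMod 2) G) (c c' : G → G → ℂ) (B : ℝ) (hB : 1 ≤ B)
    (hc : ∀ h k, ‖c h k‖ ≤ B) (hc' : ∀ h k, ‖c' h k‖ ≤ B) :
    EC H (fun a b r => ‖CP c a b r - CP c' a b r‖) ≤
      B ^ 8 * (8 * 𝔼 h ∈ hs H, 𝔼 k ∈ hs H, ‖c h k - c' h k‖) := by
  rw [← EC_sum H (fun h k => ‖c h k - c' h k‖), ← EC_mul]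
  apply EC_mono
  intro a b r
  unfold CP
  refine le_trans (cube_sub _ _ B hB (fun i j k => ?_) (fun i j k => ?_)) (le_of_eq ?_)
  · rw [norm_cj]; exact hc _ _
  · rw [norm_cj]; exact hc' _ _
  · congr 1
    apply Finset.sum_congr rfl
    intro i _
    apply Finset.sum_congr rfl
    intro j _
    apply Finset.sum_congr rfl
    intro k _
    rw [cj_sub, norm_cj]

theorem oct_diff (H : Submodule (ZMod 2) G) (c c' : G → G → ℂ) (B : ℝ) (hB : 1 ≤ B)
    (hc : ∀ h k, ‖c h k‖ ≤ B) (hc' : ∀ h k, ‖c' h k‖ ≤ B) :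
    ‖OctH H c - OctH H c'‖ ≤ B ^ 8 * (8 * 𝔼 h ∈ hs H, 𝔼 k ∈ hs H, ‖c h k - c' h k‖) := by
  refine le_trans ?_ (oct_sub H c c' B hB hc hc')
  have : OctH H c - OctH H c' = 𝔼 a ∈ Fintype.piFinset (fun _ : Fin 2 => hs H),
      𝔼 b ∈ Fintype.piFinset (fun _ : Fin 2 => hs H),
        𝔼 r ∈ Fintype.piFinset (fun _ : Fin 2 => hs H), (CP c a b r - CP c' a b r) := by
    unfold OctH CP
    simp only [Finset.expect_sub_distrib]
  rw [this]
  exact norm_EC_le H _

end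

theorem cube (hpos : T_CPOS) : T_CUBE := by
  intro b θ ε' hθ hε'
  set B : ℝ := |b| / Real.sqrt θ + 1 with hB_def
  have hsθ : 0 < Real.sqrt θ := Real.sqrt_pos.mpr hθ
  have hB : 1 ≤ B := by
    have : 0 ≤ |b| / Real.sqrt θ := by positivity
    linarith
  have hB8 : 0 < B ^ 8 := by positivity
  set D : ℝ := 2 / θ ^ 4 + 16 * B ^ 8 / θ + 1 / θ with hD_def
  have hD : 0 < D := by positivity
  refine ⟨ε' / D, by positivity, ?_⟩
  set ε : ℝ := ε' / D with hε_def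
  have hε : 0 < ε := by positivity
  have hεD : ε * D = ε' := by
    rw [hε_def]; field_simp
  intro G _ _ _ _ H c θb gb hcb hθb hmod hcub
  have hθb0 : 0 < θb := lt_of_lt_of_le hθ hθb
  set r : ℝ := Real.sqrt θb with hr_def
  have hr : 0 < r := Real.sqrt_pos.mpr hθb0
  have hr2 : r ^ 2 = θb := Real.sq_sqrt hθb0.le
  have hrθ : Real.sqrt θ ≤ r := Real.sqrt_le_sqrt hθb
  -- normalised function
  set c' : G → G → ℂ := fun h k => ((r⁻¹ : ℝ) : ℂ) * c h k with hc'_def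
  have hnc' : ∀ h k, ‖c' h k‖ = r⁻¹ * ‖c h k‖ := by
    intro h k
    simp only [hc'_def, norm_mul]
    rw [Complex.norm_real, Real.norm_eq_abs, abs_of_pos (inv_pos.mpr hr)]
  have hc'B : ∀ h k, ‖c' h k‖ ≤ B := by
    intro h k
    rw [hnc', inv_mul_eq_div, div_le_iff₀ hr]
    have h1 : ‖c h k‖ ≤ |b| := le_trans (hcb h k) (le_abs_self b)
    have h2 : |b| ≤ |b| / Real.sqrt θ * r := by
      rw [div_mul_eq_mul_div, le_div_iff₀ hsθ]
      exact mul_le_mul_of_nonneg_left hrθ (abs_nonneg _)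
    rw [hB_def]
    nlinarith
  -- moduli
  have hmod' : 𝔼 h ∈ hs H, 𝔼 k ∈ hs H, |‖c' h k‖ ^ 2 - 1| ≤ ε / θ := by
    have h1 : ∀ h k, |‖c' h k‖ ^ 2 - 1| = θb⁻¹ * |‖c h k‖ ^ 2 - θb| := by
      intro h k
      rw [hnc', mul_pow, inv_pow, hr2]
      have : θb⁻¹ * ‖c h k‖ ^ 2 - 1 = θb⁻¹ * (‖c h k‖ ^ 2 - θb) := by
        field_simp
      rw [this, abs_mul, abs_of_pos (inv_pos.mpr hθb0)]
    simp_rw [h1]
    simp_rw [← Finset.mul_expect]
    rw [inv_mul_eq_div]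
    have h2 : (𝔼 h ∈ hs H, 𝔼 k ∈ hs H, |‖c h k‖ ^ 2 - θb|) / θb ≤ ε / θb :=
      div_le_div_of_nonneg_right hmod hθb0.le
    exact le_trans h2 (div_le_div_of_nonneg_left hε.le hθ hθb)
  -- the function phi
  set φ : G → G → ℂ := fun h k => (((max ‖c' h k‖ 1)⁻¹ : ℝ) : ℂ) * c' h k with hφ_def
  have hmax : ∀ h k, 0 < max ‖c' h k‖ 1 := fun h k => lt_of_lt_of_le one_pos (le_max_right _ _)
  have hφn : ∀ h k, ‖φ h k‖ = (max ‖c' h k‖ 1)⁻¹ * ‖c' h k‖ := by
    intro h k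
    simp only [hφ_def, norm_mul]
    rw [Complex.norm_real, Real.norm_eq_abs, abs_of_pos (inv_pos.mpr (hmax h k))]
  have hφ1 : ∀ h k, ‖φ h k‖ ≤ 1 := by
    intro h k
    rw [hφn, inv_mul_eq_div, div_le_one (hmax h k)]
    exact le_max_left _ _
  have hφc : ∀ h k, ‖φ h k - c' h k‖ ≤ |‖c' h k‖ ^ 2 - 1| := by
    intro h k
    have e1 : φ h k - c' h k = (((max ‖c' h k‖ 1)⁻¹ - 1 : ℝ) : ℂ) * c' h k := by
      simp only [hφ_def]
      push_cast
      ring
    rw [e1, norm_mul, Complex.norm_real, Real.norm_eq_abs]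
    rcases le_total ‖c' h k‖ 1 with h1 | h1
    · rw [max_eq_right h1]
      simp
    · rw [max_eq_left h1]
      have hpos' : 0 < ‖c' h k‖ := lt_of_lt_of_le one_pos h1
      have h2 : ‖c' h k‖⁻¹ ≤ 1 := inv_le_one_of_one_le₀ h1
      rw [abs_of_nonpos (by linarith)]
      have h3 : -(‖c' h k‖⁻¹ - 1) * ‖c' h k‖ = ‖c' h k‖ - 1 := by
        field_simp
        ring
      rw [h3]
      refine le_trans ?_ (le_abs_self _)
      nlinarith
  have hav : 𝔼 h ∈ hs H, 𝔼 k ∈ hs H, ‖φ h k - c' h k‖ ≤ ε / θ :=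
    le_trans (Finset.expect_le_expect (fun h _ => Finset.expect_le_expect
      (fun k _ => hφc h k))) hmod'
  -- cube average of c'
  set g' : ℂ := (((r⁻¹) ^ 8 : ℝ) : ℂ) * gb with hg'_def
  have hCP : ∀ a b r' : Fin 2 → G, CP c' a b r' = (((r⁻¹) ^ 8 : ℝ) : ℂ) * CP c a b r' := by
    intro a b r'
    unfold CP
    simp only [hc'_def, cj_real_mul, Finset.prod_mul_distrib]
    congr 1
    simp
    ring
  have hr8 : (r⁻¹) ^ 8 ≤ 1 / θ ^ 4 := by
    rw [inv_pow, one_div]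
    apply inv_anti₀ (by positivity)
    have : r ^ 8 = θb ^ 4 := by
      rw [← hr2]; ring
    rw [this]
    exact pow_le_pow_left₀ hθ.le hθb 4
  have hcub' : EC H (fun a b r' => ‖CP c' a b r' - g'‖) ≤ ε / θ ^ 4 := by
    have h1 : ∀ a b r' : Fin 2 → G, ‖CP c' a b r' - g'‖ = (r⁻¹) ^ 8 * ‖CP c a b r' - gb‖ := by
      intro a b r'
      rw [hCP, hg'_def, ← mul_sub, norm_mul, Complex.norm_real, Real.norm_eq_abs,
        abs_of_nonneg (by positivity)]
    simp_rw [h1]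
    rw [EC_mul]
    calc (r⁻¹) ^ 8 * EC H (fun a b r' => ‖CP c a b r' - gb‖) ≤ 1 / θ ^ 4 * ε := by
          apply mul_le_mul hr8 hcub _ (by positivity)
          exact Finset.expect_nonneg (fun _ _ => Finset.expect_nonneg (fun _ _ =>
            Finset.expect_nonneg (fun _ _ => norm_nonneg _)))
      _ = ε / θ ^ 4 := by ring
  -- modulus of g'
  have hone : EC H (fun a b r' => |‖CP c' a b r'‖ - 1|) ≤ B ^ 8 * (8 * (ε / θ)) := by
    have h1 : ∀ a b r' : Fin 2 → G, |‖CP c' a b r'‖ - 1| ≤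
        ‖CP (fun h k => ((‖c' h k‖ : ℝ) : ℂ)) a b r' - CP (fun _ _ => (1 : ℂ)) a b r'‖ := by
      intro a b r'
      have e1 : CP (fun h k => ((‖c' h k‖ : ℝ) : ℂ)) a b r' = ((‖CP c' a b r'‖ : ℝ) : ℂ) := by
        unfold CP
        rw [norm_prod, Complex.ofReal_prod]
        apply Finset.prod_congr rfl
        intro i _
        rw [norm_prod, Complex.ofReal_prod]
        apply Finset.prod_congr rfl
        intro j _
        rw [norm_prod, Complex.ofReal_prod]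
        apply Finset.prod_congr rfl
        intro k _
        rw [norm_cj]
        unfold cj
        split
        · rfl
        · exact Complex.conj_ofReal _
      have e2 : CP (fun _ _ => (1 : ℂ)) a b r' = ((1 : ℝ) : ℂ) := by
        unfold CP cj
        simp
      rw [e1, e2, ← Complex.ofReal_sub, Complex.norm_real, Real.norm_eq_abs]
    refine le_trans (EC_mono H _ _ h1) ?_
    refine le_trans (oct_sub H (fun h k => ((‖c' h k‖ : ℝ) : ℂ)) (fun _ _ => (1 : ℂ)) B hB ?_ ?_) ?_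
    · intro h k
      rw [Complex.norm_real, norm_norm]
      exact hc'B h k
    · intro h k
      simpa using hB
    · apply mul_le_mul_of_nonneg_left _ hB8.le
      apply mul_le_mul_of_nonneg_left _ (by norm_num)
      refine le_trans ?_ hmod'
      apply Finset.expect_le_expect
      intro h _
      apply Finset.expect_le_expect
      intro k _
      have e3 : ((‖c' h k‖ : ℝ) : ℂ) - (1 : ℂ) = (((‖c' h k‖ - 1 : ℝ)) : ℂ) := by push_cast; ring
      rw [e3, Complex.norm_real, Real.norm_eq_abs]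
      have e4 : ‖c' h k‖ ^ 2 - 1 = (‖c' h k‖ - 1) * (‖c' h k‖ + 1) := by ring
      rw [e4, abs_mul]
      have e5 : 1 ≤ |‖c' h k‖ + 1| := by
        rw [abs_of_nonneg (by positivity)]
        linarith [norm_nonneg (c' h k)]
      nlinarith [abs_nonneg (‖c' h k‖ - 1)]
  have hg'1 : 1 - ‖g'‖ ≤ ε / θ ^ 4 + B ^ 8 * (8 * (ε / θ)) := by
    calc 1 - ‖g'‖ = EC H (fun _ _ _ => 1 - ‖g'‖) := (EC_const H _).symm
      _ ≤ EC H (fun a b r' => ‖CP c' a b r' - g'‖ + |‖CP c' a b r'‖ - 1|) := by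
          apply EC_mono
          intro a b r'
          have h1 : ‖CP c' a b r'‖ ≤ ‖CP c' a b r' - g'‖ + ‖g'‖ := by
            calc ‖CP c' a b r'‖ = ‖(CP c' a b r' - g') + g'‖ := by rw [sub_add_cancel]
              _ ≤ _ := norm_add_le _ _
          have h2 : 1 - ‖CP c' a b r'‖ ≤ |‖CP c' a b r'‖ - 1| := by
            rw [abs_sub_comm]; exact le_abs_self _
          linarith
      _ = EC H (fun a b r' => ‖CP c' a b r' - g'‖) + EC H (fun a b r' => |‖CP c' a b r'‖ - 1|) :=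
          EC_add H _ _
      _ ≤ _ := add_le_add hcub' hone
  have hoct : ‖OctH H c' - g'‖ ≤ ε / θ ^ 4 := by
    refine le_trans ?_ hcub'
    have hne : (Fintype.piFinset (fun _ : Fin 2 => hs H)).Nonempty := by
      refine ⟨fun _ => 0, ?_⟩
      rw [Fintype.mem_piFinset]
      intro _
      rw [mem_hs]
      exact H.zero_mem
    have h1 : OctH H c' - g' = 𝔼 a ∈ Fintype.piFinset (fun _ : Fin 2 => hs H),
      𝔼 b ∈ Fintype.piFinset (fun _ : Fin 2 => hs H),
        𝔼 r ∈ Fintype.piFinset (fun _ : Fin 2 => hs H), (CP c' a b r - g') := by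
      unfold OctH CP
      simp only [Finset.expect_sub_distrib, Finset.expect_const hne]
    rw [h1]
    exact norm_EC_le H _
  obtain ⟨hre, him⟩ := hpos G H c'
  have hre2 : (OctH H c').re = ‖OctH H c'‖ := by
    have h1 : OctH H c' = (((OctH H c').re : ℝ) : ℂ) := by
      apply Complex.ext
      · simp
      · simp [him]
    rw [h1, Complex.norm_real, Complex.ofReal_re, Real.norm_eq_abs, abs_of_nonneg hre]
  have hre3 : 1 - (2 * (ε / θ ^ 4) + B ^ 8 * (8 * (ε / θ))) ≤ (OctH H c').re := by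
    rw [hre2]
    have h1 : ‖g'‖ ≤ ‖OctH H c'‖ + ‖OctH H c' - g'‖ := by
      calc ‖g'‖ = ‖OctH H c' - (OctH H c' - g')‖ := by rw [sub_sub_cancel]
        _ ≤ _ := norm_sub_le _ _
    linarith
  have hdiff : ‖OctH H φ - OctH H c'‖ ≤ B ^ 8 * (8 * (ε / θ)) := by
    refine le_trans (oct_diff H φ c' B hB (fun h k => le_trans (hφ1 h k) hB) hc'B) ?_
    apply mul_le_mul_of_nonneg_left _ hB8.le
    exact mul_le_mul_of_nonneg_left hav (by norm_num)
  refine ⟨φ, hφ1, ?_, ?_⟩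
  · have h1 : (OctH H c').re - (OctH H φ).re ≤ ‖OctH H φ - OctH H c'‖ := by
      have := Complex.abs_re_le_norm (OctH H φ - OctH H c')
      rw [Complex.sub_re] at this
      have h2 := neg_abs_le ((OctH H φ).re - (OctH H c').re)
      linarith
    have h3 : 2 * (ε / θ ^ 4) + B ^ 8 * (8 * (ε / θ)) + B ^ 8 * (8 * (ε / θ)) ≤ ε' := by
      rw [← hεD, hD_def]
      have : ε * (2 / θ ^ 4 + 16 * B ^ 8 / θ + 1 / θ) =
        2 * (ε / θ ^ 4) + B ^ 8 * (8 * (ε / θ)) + B ^ 8 * (8 * (ε / θ)) + ε / θ := by ring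
      rw [this]
      have : 0 ≤ ε / θ := by positivity
      linarith
    linarith
  · refine le_trans hav ?_
    rw [← hεD, hD_def]
    have : ε * (2 / θ ^ 4 + 16 * B ^ 8 / θ + 1 / θ) =
        ε * (2 / θ ^ 4 + 16 * B ^ 8 / θ) + ε / θ := by ring
    rw [this]
    have : 0 ≤ ε * (2 / θ ^ 4 + 16 * B ^ 8 / θ) := by positivity
    linarith

end Pool.Agent.H81.SQC
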