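import Pool.Agent.H81.SQ.Targets

/-!
# LPH and OFFD
-/

namespace Pool.Agent.H81.SQ

open Finset Pool.Agent.H36Sq
open scoped BigOperators ComplexConjugate

/-- The indicator of the coset `x₀ + H`. -/
noncomputable def indH {G : Type} [AddCommGroup G] [Module (ZMod 2) G]
    (H : Submodule (ZMod 2) G) (x₀ x : G) : ℝ := by
  classical exact if x - x₀ ∈ H then 1 else 0

theorem abs_indH {G : Type} [AddCommGroup G] [Module (ZMod 2) G]
    (H : Submodule (ZMod 2) G) (x₀ x : G) : |indH H x₀ x| ≤ 1 := by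
  unfold indH
  split <;> simp

theorem avgH {G : Type} [AddCommGroup G] [Module (ZMod 2) G] [Fintype G]
    (H : Submodule (ZMod 2) G) (F : G → ℝ) (x₀ : G) :
    𝔼 h : H, F (x₀ + h) = idx H * 𝔼 x : G, indH H x₀ x * F x := by
  classical
  have hG : (Fintype.card G : ℝ) ≠ 0 := by
    have : 0 < Fintype.card G := Fintype.card_pos
    exact_mod_cast this.ne'
  have hH : (Fintype.card H : ℝ) ≠ 0 := by
    have : 0 < Fintype.card H := Fintype.card_pos
    exact_mod_cast this.ne'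
  have h1 : ∑ x : G, indH H x₀ x * F x = ∑ h : H, F (x₀ + h) := by
    calc ∑ x : G, indH H x₀ x * F x = ∑ y : G, indH H x₀ (x₀ + y) * F (x₀ + y) :=
          (Fintype.sum_equiv (Equiv.addLeft x₀) _ _ (fun y => rfl)).symm
      _ = ∑ y ∈ univ.filter (fun y : G => y ∈ H), F (x₀ + y) := by
          rw [Finset.sum_filter]
          apply Finset.sum_congr rfl
          intro y _
          unfold indH
          rw [add_sub_cancel_left]
          split <;> simp
      _ = ∑ h : H, F (x₀ + h) := by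
          rw [← Finset.sum_subtype (univ.filter (fun y : G => y ∈ H)) (p := fun y => y ∈ H)
            (by intro x; simp) (fun y => F (x₀ + y))]
  rw [Fintype.expect_eq_sum_div_card, Fintype.expect_eq_sum_div_card, h1]
  unfold idx
  field_simp

theorem lph (h : T_LP) : T_LPH := by
  intro G _ _ _ H L a b c x₀ y₀ ha hb hc
  have h1 : 𝔼 h : H, 𝔼 k : H, a (x₀ + h) * b (y₀ + k) * c (x₀ + h + (y₀ + k)) *
      sg (L (x₀ + h) (y₀ + k)) = idx H ^ 2 * 𝔼 x : G, 𝔼 y : G,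
        (indH H x₀ x * a x) * (indH H y₀ y * b y) * c (x + y) * sg (L x y) := by
    rw [avgH H (fun x => 𝔼 k : H, a x * b (y₀ + k) * c (x + (y₀ + k)) * sg (L x (y₀ + k))) x₀]
    have h2 : ∀ x : G, 𝔼 k : H, a x * b (y₀ + k) * c (x + (y₀ + k)) * sg (L x (y₀ + k)) =
        idx H * 𝔼 y : G, indH H y₀ y * (a x * b y * c (x + y) * sg (L x y)) := fun x =>
      avgH H (fun y => a x * b y * c (x + y) * sg (L x y)) y₀
    simp_rw [h2]
    rw [sq, mul_assoc]
    congr 1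
    rw [Finset.mul_expect]
    apply Finset.expect_congr rfl
    intro x _
    rw [Finset.mul_expect, Finset.mul_expect, Finset.mul_expect]
    apply Finset.expect_congr rfl
    intro y _
    ring
  rw [h1, abs_mul, mul_pow]
  have h3 := h G L (fun x => indH H x₀ x * a x) (fun y => indH H y₀ y * b y) c
    (fun x => by
      rw [abs_mul]; exact mul_le_one₀ (abs_indH H x₀ x) (abs_nonneg _) (ha x))
    (fun x => by
      rw [abs_mul]; exact mul_le_one₀ (abs_indH H y₀ x) (abs_nonneg _) (hb x)) hc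
  have h4 : |idx H ^ 2| ^ 4 = idx H ^ 8 := by
    rw [abs_of_nonneg (by positivity)]; ring
  rw [h4]
  exact mul_le_mul_of_nonneg_left h3 (by positivity)

theorem abs_expect_le {I : Type} [Fintype I] [Nonempty I] (t : I → ℝ) (μ : ℝ)
    (h : ∀ i, |t i| ≤ μ) : |𝔼 i, t i| ≤ μ := by
  rw [abs_le]
  constructor
  · have := Finset.expect_le_expect (s := (univ : Finset I)) (f := fun _ => -μ) (g := t)
      (fun i _ => (abs_le.mp (h i)).1)
    rwa [Finset.expect_const univ_nonempty] at this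
  · have := Finset.expect_le_expect (s := (univ : Finset I)) (f := t) (g := fun _ => μ)
      (fun i _ => (abs_le.mp (h i)).2)
    rwa [Finset.expect_const univ_nonempty] at this

theorem abs_le_of_pow4 {t μ : ℝ} (hμ : 0 ≤ μ) (h : |t| ^ 4 ≤ μ ^ 4) : |t| ≤ μ :=
  le_of_pow_le_pow_left₀ (by norm_num) hμ h

theorem abs_mul_sg {t : ℝ} (ht : |t| ≤ 1) (a : ZMod 2) : |t * sg a| ≤ 1 := by
  rw [abs_mul, abs_sg, mul_one]; exact ht

theorem abs_mul_le_one' {s t : ℝ} (hs : |s| ≤ 1) (ht : |t| ≤ 1) : |s * t| ≤ 1 := by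
  rw [abs_mul]; exact mul_le_one₀ hs (abs_nonneg _) ht

section

variable {G : Type} [AddCommGroup G] [Module (ZMod 2) G] [Fintype G]

theorem comm_dhk (H : Submodule (ZMod 2) G) (F : H → H → H → ℝ) :
    𝔼 h : H, 𝔼 k : H, 𝔼 d : H, F h k d = 𝔼 d : H, 𝔼 h : H, 𝔼 k : H, F h k d := by
  have h1 : ∀ h : H, 𝔼 k : H, 𝔼 d : H, F h k d = 𝔼 d : H, 𝔼 k : H, F h k d := fun h =>
    Finset.expect_comm _ _ _
  simp_rw [h1]
  exact Finset.expect_comm _ _ _

theorem comm_hdk (H : Submodule (ZMod 2) G) (F : H → H → H → ℝ) :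
    𝔼 h : H, 𝔼 k : H, 𝔼 d : H, F h k d = 𝔼 h : H, 𝔼 d : H, 𝔼 k : H, F h k d := by
  have h1 : ∀ h : H, 𝔼 k : H, 𝔼 d : H, F h k d = 𝔼 d : H, 𝔼 k : H, F h k d := fun h =>
    Finset.expect_comm _ _ _
  simp_rw [h1]

omit [Fintype G] in
theorem sg_expand (M₁ M₂ M₃ M₄ : LinearMap.BilinForm (ZMod 2) G) (x y d : G) :
    sg (M₁ x y) * sg (M₂ (x + d) y) * sg (M₃ x (y + d)) * sg (M₄ (x + d) (y + d)) =
      sg ((M₁ + M₂ + M₃ + M₄) x y) * (sg (M₃ x d) * sg (M₄ x d)) *
        (sg (M₂ d y) * sg (M₄ d y)) * sg (M₄ d d) := by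
  simp only [map_add, LinearMap.add_apply, sg_add]
  ring

end

theorem offd (h : T_LPH) : T_OFFD := by
  intro G _ _ _ H M₁ M₂ M₃ M₄ a a' b b' c c' x₀ y₀ μ hμ ha ha' hb hb' hc hc' hcase
  rcases hcase with h1 | h1 | h1
  · -- case (i): fix `d`
    refine le_trans (le_of_eq (congrArg abs (comm_dhk H _))) ?_
    apply abs_expect_le
    intro d
    have e1 : 𝔼 h : H, 𝔼 k : H,
      a (x₀ + h) * a' (x₀ + h + d) * b (y₀ + k) * b' (y₀ + k + d) *
        c (x₀ + h + (y₀ + k)) * c' (x₀ + h + (y₀ + k) + d) *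
        (sg (M₁ (x₀ + h) (y₀ + k)) * sg (M₂ (x₀ + h + d) (y₀ + k)) *
          sg (M₃ (x₀ + h) (y₀ + k + d)) * sg (M₄ (x₀ + h + d) (y₀ + k + d))) =
        sg (M₄ d d) * 𝔼 h : H, 𝔼 k : H,
          (a (x₀ + h) * a' (x₀ + h + d) * (sg (M₃ (x₀ + h) d) * sg (M₄ (x₀ + h) d))) *
          (b (y₀ + k) * b' (y₀ + k + d) * (sg (M₂ d (y₀ + k)) * sg (M₄ d (y₀ + k)))) *
          (c (x₀ + h + (y₀ + k)) * c' (x₀ + h + (y₀ + k) + d)) *
          sg ((M₁ + M₂ + M₃ + M₄) (x₀ + h) (y₀ + k)) := by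
      rw [Finset.mul_expect]
      apply Finset.expect_congr rfl
      intro h _
      rw [Finset.mul_expect]
      apply Finset.expect_congr rfl
      intro k _
      rw [sg_expand]
      generalize sg ((M₁ + M₂ + M₃ + M₄) (x₀ + (h : G)) (y₀ + (k : G))) = s1
      generalize sg (M₃ (x₀ + (h : G)) (d : G)) = s2
      generalize sg (M₄ (x₀ + (h : G)) (d : G)) = s3
      generalize sg (M₂ (d : G) (y₀ + (k : G))) = s4
      generalize sg (M₄ (d : G) (y₀ + (k : G))) = s5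
      ring
    rw [e1, abs_mul, abs_sg, one_mul]
    apply abs_le_of_pow4 hμ
    refine le_trans (h G H (M₁ + M₂ + M₃ + M₄)
      (fun x => a x * a' (x + d) * (sg (M₃ x d) * sg (M₄ x d)))
      (fun y => b y * b' (y + d) * (sg (M₂ d y) * sg (M₄ d y)))
      (fun z => c z * c' (z + d)) x₀ y₀ ?_ ?_ ?_) h1
    · intro x
      exact abs_mul_le_one' (abs_mul_le_one' (ha x) (ha' _))
        (abs_mul_le_one' (abs_sg _).le (abs_sg _).le)
    · intro x
      exact abs_mul_le_one' (abs_mul_le_one' (hb x) (hb' _))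
        (abs_mul_le_one' (abs_sg _).le (abs_sg _).le)
    · intro x
      exact abs_mul_le_one' (hc x) (hc' _)
  · -- case (ii): fix `k`
    refine le_trans (le_of_eq (congrArg abs (Finset.expect_comm _ _ _))) ?_
    apply abs_expect_le
    intro k
    have e1 : 𝔼 h : H, 𝔼 d : H,
      a (x₀ + h) * a' (x₀ + h + d) * b (y₀ + k) * b' (y₀ + k + d) *
        c (x₀ + h + (y₀ + k)) * c' (x₀ + h + (y₀ + k) + d) *
        (sg (M₁ (x₀ + h) (y₀ + k)) * sg (M₂ (x₀ + h + d) (y₀ + k)) *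
          sg (M₃ (x₀ + h) (y₀ + k + d)) * sg (M₄ (x₀ + h + d) (y₀ + k + d))) =
        b (y₀ + k) * 𝔼 h : H, 𝔼 d : H,
          (a (x₀ + h) * c (x₀ + h + (y₀ + k)) * sg ((M₁ + M₂ + M₃ + M₄) (x₀ + h) (y₀ + k))) *
          (b' (y₀ + k + (0 + d)) * (sg (M₂ (0 + d) (y₀ + k)) * sg (M₄ (0 + d) (y₀ + k))) *
            sg (M₄ (0 + d) (0 + d))) *
          (a' (x₀ + h + (0 + d)) * c' (x₀ + h + (0 + d) + (y₀ + k))) *
          sg ((M₃ + M₄) (x₀ + h) (0 + d)) := by
      rw [Finset.mul_expect]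
      apply Finset.expect_congr rfl
      intro h _
      rw [Finset.mul_expect]
      apply Finset.expect_congr rfl
      intro d _
      have c1 : x₀ + (h : G) + (d : G) + (y₀ + (k : G)) =
        x₀ + (h : G) + (y₀ + (k : G)) + (d : G) := by abel
      have c2 : sg ((M₃ + M₄) (x₀ + (h : G)) (d : G)) =
          sg (M₃ (x₀ + (h : G)) (d : G)) * sg (M₄ (x₀ + (h : G)) (d : G)) := by
        rw [← sg_add]; rfl
      rw [sg_expand, zero_add, c1, c2]
      generalize sg ((M₁ + M₂ + M₃ + M₄) (x₀ + (h : G)) (y₀ + (k : G))) = s1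
      generalize sg (M₃ (x₀ + (h : G)) (d : G)) = s2
      generalize sg (M₄ (x₀ + (h : G)) (d : G)) = s3
      generalize sg (M₂ (d : G) (y₀ + (k : G))) = s4
      generalize sg (M₄ (d : G) (y₀ + (k : G))) = s5
      ring
    rw [e1, abs_mul]
    refine le_trans (mul_le_mul_of_nonneg_right (hb _) (abs_nonneg _)) ?_
    rw [one_mul]
    apply abs_le_of_pow4 hμ
    refine le_trans (h G H (M₃ + M₄)
      (fun x => a x * c (x + (y₀ + k)) * sg ((M₁ + M₂ + M₃ + M₄) x (y₀ + k)))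
      (fun d => b' (y₀ + k + d) * (sg (M₂ d (y₀ + k)) * sg (M₄ d (y₀ + k))) * sg (M₄ d d))
      (fun z => a' z * c' (z + (y₀ + k))) x₀ 0 ?_ ?_ ?_) h1
    · intro x
      exact abs_mul_sg (abs_mul_le_one' (ha x) (hc _)) _
    · intro x
      exact abs_mul_sg (abs_mul_le_one' (hb' _) (abs_mul_le_one' (abs_sg _).le (abs_sg _).le)) _
    · intro x
      exact abs_mul_le_one' (ha' x) (hc' _)
  · -- case (iii): fix `h`
    refine le_trans (le_of_eq (congrArg abs (comm_hdk H _))) ?_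
    apply abs_expect_le
    intro h'
    have e1 : 𝔼 d : H, 𝔼 k : H,
      a (x₀ + h') * a' (x₀ + h' + d) * b (y₀ + k) * b' (y₀ + k + d) *
        c (x₀ + h' + (y₀ + k)) * c' (x₀ + h' + (y₀ + k) + d) *
        (sg (M₁ (x₀ + h') (y₀ + k)) * sg (M₂ (x₀ + h' + d) (y₀ + k)) *
          sg (M₃ (x₀ + h') (y₀ + k + d)) * sg (M₄ (x₀ + h' + d) (y₀ + k + d))) =
        a (x₀ + h') * 𝔼 d : H, 𝔼 k : H,
          (a' (x₀ + h' + (0 + d)) * (sg (M₃ (x₀ + h') (0 + d)) * sg (M₄ (x₀ + h') (0 + d))) *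
            sg (M₄ (0 + d) (0 + d))) *
          (b (y₀ + k) * c (x₀ + h' + (y₀ + k)) *
            sg ((M₁ + M₂ + M₃ + M₄) (x₀ + h') (y₀ + k))) *
          (b' (0 + d + (y₀ + k)) * c' (x₀ + h' + (0 + d + (y₀ + k)))) *
          sg ((M₂ + M₄) (0 + d) (y₀ + k)) := by
      rw [Finset.mul_expect]
      apply Finset.expect_congr rfl
      intro d _
      rw [Finset.mul_expect]
      apply Finset.expect_congr rfl
      intro k _
      have c1 : (d : G) + (y₀ + (k : G)) = y₀ + (k : G) + (d : G) := by abel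
      have c2 : x₀ + (h' : G) + (y₀ + (k : G) + (d : G)) =
        x₀ + (h' : G) + (y₀ + (k : G)) + (d : G) := by abel
      have c3 : sg ((M₂ + M₄) (d : G) (y₀ + (k : G))) =
          sg (M₂ (d : G) (y₀ + (k : G))) * sg (M₄ (d : G) (y₀ + (k : G))) := by
        rw [← sg_add]; rfl
      rw [sg_expand, zero_add, c1, c2, c3]
      generalize sg ((M₁ + M₂ + M₃ + M₄) (x₀ + (h' : G)) (y₀ + (k : G))) = s1
      generalize sg (M₃ (x₀ + (h' : G)) (d : G)) = s2
      generalize sg (M₄ (x₀ + (h' : G)) (d : G)) = s3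
      generalize sg (M₂ (d : G) (y₀ + (k : G))) = s4
      generalize sg (M₄ (d : G) (y₀ + (k : G))) = s5
      ring
    rw [e1, abs_mul]
    refine le_trans (mul_le_mul_of_nonneg_right (ha _) (abs_nonneg _)) ?_
    rw [one_mul]
    apply abs_le_of_pow4 hμ
    refine le_trans (h G H (M₂ + M₄)
      (fun d => a' (x₀ + h' + d) * (sg (M₃ (x₀ + h') d) * sg (M₄ (x₀ + h') d)) * sg (M₄ d d))
      (fun y => b y * c (x₀ + h' + y) * sg ((M₁ + M₂ + M₃ + M₄) (x₀ + h') y))
      (fun z => b' z * c' (x₀ + h' + z)) 0 y₀ ?_ ?_ ?_) h1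
    · intro x
      exact abs_mul_sg (abs_mul_le_one' (ha' _) (abs_mul_le_one' (abs_sg _).le (abs_sg _).le)) _
    · intro x
      exact abs_mul_sg (abs_mul_le_one' (hb x) (hc _)) _
    · intro x
      exact abs_mul_le_one' (hb' x) (hc' _)

end Pool.Agent.H81.SQ
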