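import Pool.Agent.H81.SQ.Targets

/-!
# LOC: localisation of the averages
-/

namespace Pool.Agent.H81.SQ

open Finset Pool.Agent.H36Sq
open scoped BigOperators ComplexConjugate

theorem loc : T_LOC := by
  classical
  intro G _ _ _ H f
  have sh : ∀ (F : G → ℝ) (a : G), 𝔼 x : G, F (x + a) = 𝔼 x : G, F x := fun F a =>
    Fintype.expect_equiv (Equiv.addRight a) _ _ (fun x => rfl)
  refine ⟨?_, ?_, ?_⟩
  · unfold TH TL
    have h1 : 𝔼 x : G, 𝔼 y : G, 𝔼 h : H, 𝔼 k : H, 𝔼 d : H,
        f (x + h) (y + k) * f (x + h + d) (y + k) * f (x + h) (y + k + d) *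
          f (x + h + d) (y + k + d) =
        𝔼 h : H, 𝔼 k : H, 𝔼 d : H, 𝔼 x : G, 𝔼 y : G,
          f (x + h) (y + k) * f (x + h + d) (y + k) * f (x + h) (y + k + d) *
          f (x + h + d) (y + k + d) := by
      have e1 : ∀ (F : G → G → H → H → H → ℝ),
          𝔼 x : G, 𝔼 y : G, 𝔼 h : H, 𝔼 k : H, 𝔼 d : H, F x y h k d =
          𝔼 h : H, 𝔼 k : H, 𝔼 d : H, 𝔼 x : G, 𝔼 y : G, F x y h k d := by
        intro F
        calc 𝔼 x : G, 𝔼 y : G, 𝔼 h : H, 𝔼 k : H, 𝔼 d : H, F x y h k d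
            = 𝔼 x : G, 𝔼 h : H, 𝔼 y : G, 𝔼 k : H, 𝔼 d : H, F x y h k d :=
              Finset.expect_congr rfl (fun x _ => Finset.expect_comm _ _ _)
          _ = 𝔼 h : H, 𝔼 x : G, 𝔼 y : G, 𝔼 k : H, 𝔼 d : H, F x y h k d :=
              Finset.expect_comm _ _ _
          _ = 𝔼 h : H, 𝔼 x : G, 𝔼 k : H, 𝔼 y : G, 𝔼 d : H, F x y h k d :=
              Finset.expect_congr rfl (fun h _ => Finset.expect_congr rfl
                (fun x _ => Finset.expect_comm _ _ _))
          _ = 𝔼 h : H, 𝔼 k : H, 𝔼 x : G, 𝔼 y : G, 𝔼 d : H, F x y h k d :=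
              Finset.expect_congr rfl (fun h _ => Finset.expect_comm _ _ _)
          _ = 𝔼 h : H, 𝔼 k : H, 𝔼 x : G, 𝔼 d : H, 𝔼 y : G, F x y h k d :=
              Finset.expect_congr rfl (fun h _ => Finset.expect_congr rfl
                (fun k _ => Finset.expect_congr rfl (fun x _ => Finset.expect_comm _ _ _)))
          _ = _ :=
              Finset.expect_congr rfl (fun h _ => Finset.expect_congr rfl
                (fun k _ => Finset.expect_comm _ _ _))
      exact e1 (fun x y h k d => f (x + h) (y + k) * f (x + h + d) (y + k) *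
        f (x + h) (y + k + d) * f (x + h + d) (y + k + d))
    rw [h1]
    have h2 : ∀ (h k d : H), 𝔼 x : G, 𝔼 y : G,
          f (x + h) (y + k) * f (x + h + d) (y + k) * f (x + h) (y + k + d) *
          f (x + h + d) (y + k + d) =
        𝔼 x : G, 𝔼 y : G, f x y * f (x + d) y * f x (y + d) * f (x + d) (y + d) := by
      intro h k d
      rw [sh (fun x => 𝔼 y : G, f x (y + k) * f (x + d) (y + k) * f x (y + k + d) *
          f (x + d) (y + k + d)) h]
      apply Finset.expect_congr rfl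
      intro x _
      exact sh (fun y => f x y * f (x + d) y * f x (y + d) * f (x + d) (y + d)) k
    simp_rw [h2]
    rw [Finset.expect_const univ_nonempty, Finset.expect_const univ_nonempty]
  · unfold ML
    have h1 : 𝔼 x : G, 𝔼 y : G, 𝔼 h : H, 𝔼 k : H, f (x + h) (y + k) =
        𝔼 h : H, 𝔼 k : H, 𝔼 x : G, 𝔼 y : G, f (x + h) (y + k) := by
      calc 𝔼 x : G, 𝔼 y : G, 𝔼 h : H, 𝔼 k : H, f (x + h) (y + k)
          = 𝔼 x : G, 𝔼 h : H, 𝔼 y : G, 𝔼 k : H, f (x + h) (y + k) :=
            Finset.expect_congr rfl (fun x _ => Finset.expect_comm _ _ _)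
        _ = 𝔼 h : H, 𝔼 x : G, 𝔼 y : G, 𝔼 k : H, f (x + h) (y + k) :=
            Finset.expect_comm _ _ _
        _ = 𝔼 h : H, 𝔼 x : G, 𝔼 k : H, 𝔼 y : G, f (x + h) (y + k) :=
            Finset.expect_congr rfl (fun h _ => Finset.expect_congr rfl
              (fun x _ => Finset.expect_comm _ _ _))
        _ = _ := Finset.expect_congr rfl (fun h _ => Finset.expect_comm _ _ _)
    rw [h1]
    have h2 : ∀ (h k : H), 𝔼 x : G, 𝔼 y : G, f (x + h) (y + k) = 𝔼 x : G, 𝔼 y : G, f x y := by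
      intro h k
      rw [sh (fun x => 𝔼 y : G, f x (y + k)) h]
      apply Finset.expect_congr rfl
      intro x _
      exact sh (fun y => f x y) k
    simp_rw [h2]
    rw [Finset.expect_const univ_nonempty, Finset.expect_const univ_nonempty]
  · intro K lam x₀
    refine ⟨fun l => Finset.expect_nonneg (fun h _ => by split <;> norm_num), ?_⟩
    unfold dens
    rw [← Finset.expect_sum_comm]
    simp

end Pool.Agent.H81.SQ
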