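import Pool.Agent.H81.SQ.Targets

/-!
# RR: rank reduction
-/

namespace Pool.Agent.H81.SQ

open Finset Pool.Agent.H36Sq
open scoped BigOperators ComplexConjugate

/-- Iterated one-step reduction for closed factors. -/
theorem rr_aux (h2 : T_RR1) (ν : ℕ → ℝ) (hν : ∀ n, 0 < ν n) : ∀ j n : ℕ, ∃ n' : ℕ,
    ∀ (G : Type) [AddCommGroup G] [Module (ZMod 2) G] [Fintype G] (B : Fac G), B.TC → B.k ≤ j →
      B.cx ≤ n → ∃ B' : Fac G, B'.Ref B ∧ B'.cx ≤ n' ∧ B'.TC ∧ B'.HR (ν B'.cx) := by
  intro j
  induction j with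
  | zero =>
    intro n
    refine ⟨n, ?_⟩
    intro G _ _ _ B hTC hk hcx
    refine ⟨B, fun _ _ _ _ h => h, hcx, hTC, ?_⟩
    intro γ hγ
    exfalso
    apply hγ
    funext i
    have := i.2
    omega
  | succ j ih =>
    intro n
    -- bound for the number of labels after one step
    set S : ℝ := ∑ m ∈ range (n + 1), (n : ℝ) * (4 / ν m) with hS_def
    obtain ⟨n2, hn2⟩ := ih (⌈S⌉₊ + n)
    refine ⟨max n n2, ?_⟩
    intro G _ _ _ B hTC hk hcx
    by_cases hHR : B.HR (ν B.cx)
    · exact ⟨B, fun _ _ _ _ h => h, le_trans hcx (le_max_left _ _), hTC, hHR⟩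
    · obtain ⟨B1, r1, tc1, k1, K1⟩ := h2 G B (ν B.cx) (hν _) hTC hHR
      have hcx1 : B1.cx ≤ ⌈S⌉₊ + n := by
        have hK : (B1.K : ℝ) ≤ S := by
          refine le_trans K1 ?_
          have e1 : (B.K : ℝ) * (4 / ν B.cx) ≤ (n : ℝ) * (4 / ν B.cx) := by
            apply mul_le_mul_of_nonneg_right
            · have : B.K ≤ n := by
                have := hcx
                unfold Fac.cx at this
                omega
              exact_mod_cast this
            · have := hν B.cx
              positivity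
          refine le_trans e1 ?_
          refine Finset.single_le_sum (f := fun m => (n : ℝ) * (4 / ν m)) ?_ ?_
          · intro m _
            have := hν m
            positivity
          · rw [mem_range]; omega
        have hK' : B1.K ≤ ⌈S⌉₊ := by
          have := Nat.le_ceil S
          exact_mod_cast le_trans hK this
        have : B1.k ≤ n := by
          have := hcx
          unfold Fac.cx at this
          omega
        unfold Fac.cx
        omega
      obtain ⟨B2, r2, c2, tc2, hr2⟩ := hn2 G B1 tc1 (by omega) hcx1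
      exact ⟨B2, fun x y x' y' h => r1 x y x' y' (r2 x y x' y' h),
        le_trans c2 (le_max_right _ _), tc2, hr2⟩

theorem rr (h1 : T_TCL) (h2 : T_RR1) : T_RR := by
  intro ν hν n
  obtain ⟨n', hn'⟩ := rr_aux h2 ν hν n (n * 2 ^ n + n)
  refine ⟨n', ?_⟩
  intro G _ _ _ B hcx
  obtain ⟨B1, r1, tc1, k1, K1⟩ := h1 G B
  have hK : B.K ≤ n := by
    unfold Fac.cx at hcx; omega
  have hk : B.k ≤ n := by
    unfold Fac.cx at hcx; omega
  have hcx1 : B1.cx ≤ n * 2 ^ n + n := by
    unfold Fac.cx
    have : B.K * 2 ^ B.k ≤ n * 2 ^ n :=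
      Nat.mul_le_mul hK (Nat.pow_le_pow_right (by norm_num) hk)
    omega
  obtain ⟨B2, r2, c2, tc2, hr2⟩ := hn' G B1 tc1 (by omega) hcx1
  exact ⟨B2, fun x y x' y' h => r1 x y x' y' (r2 x y x' y' h), c2, tc2, hr2⟩

end Pool.Agent.H81.SQ
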