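import Pool.Agent.H62.SQ.CE
import Pool.Agent.H62.SQ.COLL
import Pool.Agent.H62.SQ.FEXP
import Pool.Agent.H88.SQ.CEF
import Pool.Agent.H88.SQ.RQ
import Pool.Agent.H25.SQ.CNT
import Pool.Agent.H25.SQ.CNT1
import Pool.Agent.H25.SQ.FRS1
import Pool.Agent.H19.SQ.SplitCob
import Pool.Agent.H19.SQ.LP
import Pool.Agent.H19.SQ.LI
import Pool.Agent.H24.SQ.DISC
import Pool.Agent.H24.SQ.INC
import Pool.Agent.H24.SQ.WREG
import Pool.Agent.H13.SQ.FRS
import Pool.Agent.H13.SQ.TCL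
import Pool.Agent.H50.SQ.GVN0
import Pool.Agent.H50.SQ.GVNH
import Pool.Agent.H50.SQ.REPL
import Pool.Agent.H79.SQ.REG
import Pool.Agent.H79.SQ.RR1
import Pool.Agent.H3.SQ.OCT
import Pool.Agent.H3.SQ.OCT2
import Pool.Agent.H81.SQ.Fin
import Pool.Agent.H81.SQ.Loc
import Pool.Agent.H81.SQ.RR
import Pool.Agent.H81.SQ.MainH
import Pool.Agent.H81.SQ.LPH

/-!
# Part 2: the inverse theorem implies that 16 is a valid exponent
-/

namespace Pool.Agent.H81.SQ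

open Pool.Agent.H36Sq

theorem p_ce : T_CE := Pool.Agent.H62.SQ.ce_props
theorem p_cef : T_CEF := Pool.Agent.H88.SQ.cef p_ce
theorem p_reg (h : T_IT) : T_REG :=
  Pool.Agent.H79.SQ.reg
    (Pool.Agent.H24.SQ.wreg (Pool.Agent.H24.SQ.inc h p_cef Pool.Agent.H24.SQ.disc) p_cef)
    (rr Pool.Agent.H13.SQ.tcl
      (Pool.Agent.H79.SQ.rr1 (Pool.Agent.H88.SQ.rq Pool.Agent.H19.SQ.split)
        Pool.Agent.H19.SQ.cob4))
    p_cef
theorem p_frs : T_FRS := Pool.Agent.H13.SQ.frs Pool.Agent.H25.SQ.frs1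
theorem p_repl : T_REPL := Pool.Agent.H50.SQ.repl (Pool.Agent.H50.SQ.gvnh Pool.Agent.H50.SQ.gvn0)
theorem p_lph : T_LPH := lph Pool.Agent.H19.SQ.lp
theorem p_oct2 : T_OCT2 := oct2 oct
theorem p_cnt : T_CNT := Pool.Agent.H25.SQ.cnt (offd p_lph) p_oct2 Pool.Agent.H62.SQ.fexp
theorem p_cnt1 : T_CNT1 := Pool.Agent.H25.SQ.cnt1 p_lph (tri p_oct2) Pool.Agent.H62.SQ.fexp
theorem p_li : T_LI := Pool.Agent.H19.SQ.li Pool.Agent.H62.SQ.coll

/-- The inverse theorem implies that 16 is a valid exponent. -/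
theorem part2 (h : T_IT) : ValidExponent 16 :=
  fin (mainh (p_reg h) p_frs p_repl p_cef p_cnt p_cnt1 p_li loc)

end Pool.Agent.H81.SQ
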