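import Pool.Agent.H81.SQ.Defs

/-!
# Targets of part 2 (regularity and counting)
-/

namespace Pool.Agent.H81.SQ

open Finset Pool.Agent.H36Sq
open scoped BigOperators ComplexConjugate

/-! ## Section 10: generalised von Neumann -/

/-- The square average with four functions. -/
noncomputable def Lam {G : Type} [AddCommGroup G] [Fintype G] (f0 f1 f2 f3 : G → G → ℂ) : ℂ :=
  𝔼 x : G, 𝔼 y : G, 𝔼 d : G, f0 x y * f1 (x + d) y * f2 x (y + d) * f3 (x + d) (y + d)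

/-- GVN0: three Cauchy-Schwarz steps. -/
def T_GVN0 : Prop :=
  ∀ (G : Type) [AddCommGroup G] [Module (ZMod 2) G] [Fintype G] (f0 f1 f2 f3 : G → G → ℂ),
    (∀ x y, ‖f0 x y‖ ≤ 1) → (∀ x y, ‖f1 x y‖ ≤ 1) → (∀ x y, ‖f2 x y‖ ≤ 1) →
    (∀ x y, ‖f3 x y‖ ≤ 1) → ‖Lam f0 f1 f2 f3‖ ^ 8 ≤ U8 f0

/-- GVNH: the version for squares with difference in a subspace, real functions, all positions. -/
def T_GVNH : Prop :=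
  ∀ (G : Type) [AddCommGroup G] [Module (ZMod 2) G] [Fintype G] (H : Submodule (ZMod 2) G)
    (f0 f1 f2 f3 : G → G → ℝ),
    (∀ x y, |f0 x y| ≤ 1) → (∀ x y, |f1 x y| ≤ 1) → (∀ x y, |f2 x y| ≤ 1) →
    (∀ x y, |f3 x y| ≤ 1) →
    |TH H f0 f1 f2 f3| ^ 8 ≤ idx H ^ 16 * U8 (fun x y => ((f0 x y : ℝ) : ℂ)) ∧
    |TH H f0 f1 f2 f3| ^ 8 ≤ idx H ^ 16 * U8 (fun x y => ((f1 x y : ℝ) : ℂ)) ∧
    |TH H f0 f1 f2 f3| ^ 8 ≤ idx H ^ 16 * U8 (fun x y => ((f2 x y : ℝ) : ℂ)) ∧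
    |TH H f0 f1 f2 f3| ^ 8 ≤ idx H ^ 16 * U8 (fun x y => ((f3 x y : ℝ) : ℂ))

/-- REPL: replacing `f` by a structured function in the square count. -/
def T_REPL : Prop :=
  ∀ (G : Type) [AddCommGroup G] [Module (ZMod 2) G] [Fintype G] (H : Submodule (ZMod 2) G)
    (f f' f₁ : G → G → ℝ) (ε₁ ε₂ : ℝ), 0 ≤ ε₁ → 0 ≤ ε₂ →
    (∀ x y, 0 ≤ f x y ∧ f x y ≤ 1) → (∀ x y, 0 ≤ f' x y ∧ f' x y ≤ 1) →
    (∀ x y, 0 ≤ f₁ x y ∧ f₁ x y ≤ 1) →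
    (𝔼 x : G, 𝔼 y : G, (f' x y - f₁ x y) ^ 2) ≤ ε₁ ^ 2 →
    idx H ^ 16 * U8 (fun x y => ((f x y - f' x y : ℝ) : ℂ)) ≤ ε₂ ^ 8 →
    |TH H f f f f - TH H f₁ f₁ f₁ f₁| ≤ 4 * (ε₁ + ε₂)

/-! ## Section 11: the trilinear bound -/

/-- LP -/
def T_LP : Prop :=
  ∀ (G : Type) [AddCommGroup G] [Module (ZMod 2) G] [Fintype G]
    (L : LinearMap.BilinForm (ZMod 2) G) (a b c : G → ℝ),
    (∀ x, |a x| ≤ 1) → (∀ x, |b x| ≤ 1) → (∀ x, |c x| ≤ 1) →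
    |𝔼 h : G, 𝔼 k : G, a h * b k * c (h + k) * sg (L h k)| ^ 4 ≤
      (Fintype.card (rad L) : ℝ) / (Fintype.card G : ℝ)

/-- LPH: the same on cosets of a subspace. -/
def T_LPH : Prop :=
  ∀ (G : Type) [AddCommGroup G] [Module (ZMod 2) G] [Fintype G] (H : Submodule (ZMod 2) G)
    (L : LinearMap.BilinForm (ZMod 2) G) (a b c : G → ℝ) (x₀ y₀ : G),
    (∀ x, |a x| ≤ 1) → (∀ x, |b x| ≤ 1) → (∀ x, |c x| ≤ 1) →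
    |𝔼 h : H, 𝔼 k : H, a (x₀ + h) * b (y₀ + k) * c (x₀ + h + (y₀ + k)) *
      sg (L (x₀ + h) (y₀ + k))| ^ 4 ≤
      idx H ^ 8 * ((Fintype.card (rad L) : ℝ) / (Fintype.card G : ℝ))

/-- OFFD: the terms of the square count with different frequencies are small. -/
def T_OFFD : Prop :=
  ∀ (G : Type) [AddCommGroup G] [Module (ZMod 2) G] [Fintype G] (H : Submodule (ZMod 2) G)
    (M₁ M₂ M₃ M₄ : LinearMap.BilinForm (ZMod 2) G) (a a' b b' c c' : G → ℝ) (x₀ y₀ : G) (μ : ℝ),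
    0 ≤ μ → (∀ x, |a x| ≤ 1) → (∀ x, |a' x| ≤ 1) → (∀ x, |b x| ≤ 1) → (∀ x, |b' x| ≤ 1) →
    (∀ x, |c x| ≤ 1) → (∀ x, |c' x| ≤ 1) →
    (idx H ^ 8 * ((Fintype.card (rad (M₁ + M₂ + M₃ + M₄)) : ℝ) / (Fintype.card G : ℝ)) ≤ μ ^ 4 ∨
      idx H ^ 8 * ((Fintype.card (rad (M₃ + M₄)) : ℝ) / (Fintype.card G : ℝ)) ≤ μ ^ 4 ∨
      idx H ^ 8 * ((Fintype.card (rad (M₂ + M₄)) : ℝ) / (Fintype.card G : ℝ)) ≤ μ ^ 4) →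
    |𝔼 h : H, 𝔼 k : H, 𝔼 d : H,
      a (x₀ + h) * a' (x₀ + h + d) * b (y₀ + k) * b' (y₀ + k + d) *
        c (x₀ + h + (y₀ + k)) * c' (x₀ + h + (y₀ + k) + d) *
        (sg (M₁ (x₀ + h) (y₀ + k)) * sg (M₂ (x₀ + h + d) (y₀ + k)) *
          sg (M₃ (x₀ + h) (y₀ + k + d)) * sg (M₄ (x₀ + h + d) (y₀ + k + d)))| ≤ μ

/-! ## Section 8e and 12: linear algebra, factors, regularity -/

/-- SPLIT: an alternating form is `m + m^T`. -/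
def T_SPLIT : Prop :=
  ∀ (G : Type) [AddCommGroup G] [Module (ZMod 2) G] [Fintype G]
    (b : LinearMap.BilinForm (ZMod 2) G), (∀ x, b x x = 0) →
    ∃ m : LinearMap.BilinForm (ZMod 2) G, ∀ x y, b x y = m x y + m y x

/-- COB4: a symmetric form is the coboundary of a function with values in `ZMod 4`. -/
def T_COB4 : Prop :=
  ∀ (G : Type) [AddCommGroup G] [Module (ZMod 2) G] [Fintype G]
    (σ : LinearMap.BilinForm (ZMod 2) G), (∀ x y, σ x y = σ y x) →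
    ∃ q : G → ZMod 4, ∀ x y, q (x + y) = q x + q y + 2 * (((σ x y).val : ℕ) : ZMod 4)

/-- RQ: modulo symmetric forms, a form can be pulled back from the quotient by its radical. -/
def T_RQ : Prop :=
  ∀ (G : Type) [AddCommGroup G] [Module (ZMod 2) G] [Fintype G]
    (M : LinearMap.BilinForm (ZMod 2) G),
    ∃ M' : LinearMap.BilinForm (ZMod 2) G,
      (∀ x y, M x y + M' x y = M y x + M' y x) ∧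
      ∀ x x' y y', x - x' ∈ rad M → y - y' ∈ rad M → M' x y = M' x' y'

/-- CE: conditional expectations. -/
def T_CE : Prop :=
  ∀ (Ω γ γ' : Type) [Fintype Ω] [DecidableEq γ] [DecidableEq γ'] (c : Ω → γ) (c' : Ω → γ')
    (f : Ω → ℝ), (∀ p q, c' p = c' q → c p = c q) → (∀ p, 0 ≤ f p ∧ f p ≤ 1) →
    (∀ p, 0 ≤ ce c f p ∧ ce c f p ≤ 1) ∧
    (∀ p q, c p = c q → ce c f p = ce c f q) ∧
    (𝔼 p, ce c f p = 𝔼 p, f p) ∧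
    (∀ φ : Ω → ℝ, (∀ p q, c p = c q → φ p = φ q) → 𝔼 p, f p * φ p = 𝔼 p, ce c f p * φ p) ∧
    (𝔼 p, (ce c' f p) ^ 2 = (𝔼 p, (ce c f p) ^ 2) + 𝔼 p, (ce c' f p - ce c f p) ^ 2)

/-- CEF: the same for factors (curried). -/
def T_CEF : Prop :=
  ∀ (G : Type) [AddCommGroup G] [Module (ZMod 2) G] [Fintype G] (B B' : Fac G)
    (f : G → G → ℝ), B'.Ref B → (∀ x y, 0 ≤ f x y ∧ f x y ≤ 1) →
    (∀ x y, 0 ≤ B.ce f x y ∧ B.ce f x y ≤ 1) ∧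
    (∃ F : Fin B.K → Fin B.K → Fin B.K → (Fin B.k → ZMod 2) → ℝ,
      (∀ i j l m, 0 ≤ F i j l m ∧ F i j l m ≤ 1) ∧
      ∀ x y, B.ce f x y = F (B.lam x) (B.lam y) (B.lam (x + y)) (fun i => B.M i x y)) ∧
    (𝔼 x : G, 𝔼 y : G, B.ce f x y = 𝔼 x : G, 𝔼 y : G, f x y) ∧
    (∀ φ : G → G → ℝ, (∀ x y x' y', B.code x y = B.code x' y' → φ x y = φ x' y') →
      𝔼 x : G, 𝔼 y : G, f x y * φ x y = 𝔼 x : G, 𝔼 y : G, B.ce f x y * φ x y) ∧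
    (B'.en f = B.en f + 𝔼 x : G, 𝔼 y : G, (B'.ce f x y - B.ce f x y) ^ 2) ∧
    0 ≤ B.en f ∧ B.en f ≤ 1

/-- TCL: making a factor closed. -/
def T_TCL : Prop :=
  ∀ (G : Type) [AddCommGroup G] [Module (ZMod 2) G] [Fintype G] (B : Fac G),
    ∃ B' : Fac G, B'.Ref B ∧ B'.TC ∧ B'.k = B.k ∧ B'.K ≤ B.K * 2 ^ B.k

/-- RR1: one step of the rank reduction. -/
def T_RR1 : Prop :=
  ∀ (G : Type) [AddCommGroup G] [Module (ZMod 2) G] [Fintype G] (B : Fac G) (ν : ℝ),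
    0 < ν → B.TC → ¬ B.HR ν →
    ∃ B' : Fac G, B'.Ref B ∧ B'.TC ∧ B'.k + 1 = B.k ∧ (B'.K : ℝ) ≤ B.K * (4 / ν)

/-- RR: rank reduction. -/
def T_RR : Prop :=
  ∀ ν : ℕ → ℝ, (∀ n, 0 < ν n) → ∀ n : ℕ, ∃ n' : ℕ,
    ∀ (G : Type) [AddCommGroup G] [Module (ZMod 2) G] [Fintype G] (B : Fac G), B.cx ≤ n →
      ∃ B' : Fac G, B'.Ref B ∧ B'.cx ≤ n' ∧ B'.TC ∧ B'.HR (ν B'.cx)

/-- DISC: a finite net of the unit disc. -/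
def T_DISC : Prop :=
  ∀ ε : ℝ, 0 < ε → ∃ (m : ℕ) (t : Fin m → ℂ), (∀ i, ‖t i‖ ≤ 1) ∧
    ∀ z : ℂ, ‖z‖ ≤ 1 → ∃ i, ‖z - t i‖ ≤ ε

/-- INC: energy increment from the inverse theorem. -/
def T_INC : Prop :=
  ∀ δ : ℝ, 0 < δ → ∃ (K₀ : ℕ) (c : ℝ), 0 < c ∧
    ∀ (G : Type) [AddCommGroup G] [Module (ZMod 2) G] [Fintype G] (B : Fac G) (f : G → G → ℝ),
      (∀ x y, 0 ≤ f x y ∧ f x y ≤ 1) → δ ≤ U8 (fun x y => ((f x y - B.ce f x y : ℝ) : ℂ)) →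
      ∃ B' : Fac G, B'.Ref B ∧ B'.k = B.k + 1 ∧ B'.K ≤ B.K * K₀ ∧ B.en f + c ≤ B'.en f

/-- WREG: weak regularity. -/
def T_WREG : Prop :=
  ∀ δ : ℝ, 0 < δ → ∀ n : ℕ, ∃ n' : ℕ,
    ∀ (G : Type) [AddCommGroup G] [Module (ZMod 2) G] [Fintype G] (B : Fac G) (f : G → G → ℝ),
      (∀ x y, 0 ≤ f x y ∧ f x y ≤ 1) → B.cx ≤ n →
      ∃ B' : Fac G, B'.Ref B ∧ B'.cx ≤ n' ∧ U8 (fun x y => ((f x y - B'.ce f x y : ℝ) : ℂ)) ≤ δ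

/-- REG: strong regularity. -/
def T_REG : Prop :=
  ∀ (ε : ℝ) (η ν : ℕ → ℝ), 0 < ε → (∀ n, 0 < η n) → (∀ n, 0 < ν n) → ∃ C : ℕ,
    ∀ (G : Type) [AddCommGroup G] [Module (ZMod 2) G] [Fintype G] (f : G → G → ℝ),
      (∀ x y, 0 ≤ f x y ∧ f x y ≤ 1) →
      ∃ B B' : Fac G, B'.Ref B ∧ B.cx ≤ C ∧ B.TC ∧ B.HR (ν B.cx) ∧
        (𝔼 x : G, 𝔼 y : G, (B'.ce f x y - B.ce f x y) ^ 2) ≤ ε ^ 2 ∧
        U8 (fun x y => ((f x y - B'.ce f x y : ℝ) : ℂ)) ≤ η B.cx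

/-! ## Section 13: Fourier regular subspace -/

/-- FRS1: one step of the energy increment. -/
def T_FRS1 : Prop :=
  ∀ (G : Type) [AddCommGroup G] [Module (ZMod 2) G] [Fintype G] (K : ℕ) (lam : G → Fin K)
    (H : Submodule (ZMod 2) G) (κ : ℝ), 0 < κ →
    ¬ ((Nat.card {x₀ : G // ¬ Good H lam κ x₀} : ℝ) ≤ κ * Fintype.card G) →
    ∃ H' : Submodule (ZMod 2) G,
      idx H' ≤ idx H * 2 ^ (idx H) ∧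
      (∑ l : Fin K, 𝔼 x : G, (dens H lam x l) ^ 2) + κ ^ 3 ≤
        ∑ l : Fin K, 𝔼 x : G, (dens H' lam x l) ^ 2

/-- FRS -/
def T_FRS : Prop :=
  ∀ (K : ℕ) (κ : ℝ), 0 < κ → ∃ n₁ : ℕ,
    ∀ (G : Type) [AddCommGroup G] [Module (ZMod 2) G] [Fintype G] (lam : G → Fin K),
      ∃ H : Submodule (ZMod 2) G, idx H ≤ n₁ ∧
        (Nat.card {x₀ : G // ¬ Good H lam κ x₀} : ℝ) ≤ κ * Fintype.card G

/-! ## Section 14: counting -/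

/-- OCT: the octahedral average is controlled by the Fourier coefficients of `g₁`. -/
def T_OCT : Prop :=
  ∀ (V : Type) [AddCommGroup V] [Module (ZMod 2) V] [Fintype V] (g₁ g₂ g₃ g₄ g₅ g₆ : V → ℝ)
    (κ : ℝ), (∀ v, |g₁ v| ≤ 1) → (∀ v, |g₂ v| ≤ 1) → (∀ v, |g₃ v| ≤ 1) → (∀ v, |g₄ v| ≤ 1) →
    (∀ v, |g₅ v| ≤ 1) → (∀ v, |g₆ v| ≤ 1) →
    (∀ χ : Module.Dual (ZMod 2) V, |𝔼 v : V, g₁ v * sg (χ v)| ≤ κ) →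
    (𝔼 h : V, 𝔼 k : V, 𝔼 d : V,
      g₁ h * g₂ (h + d) * g₃ k * g₄ (k + d) * g₅ (h + k) * g₆ (h + k + d)) ^ 2 ≤ κ

/-- OCT2: six regular functions are independent along octahedra. -/
def T_OCT2 : Prop :=
  ∀ (V : Type) [AddCommGroup V] [Module (ZMod 2) V] [Fintype V] (g₁ g₂ g₃ g₄ g₅ g₆ : V → ℝ)
    (ρ : ℝ), 0 ≤ ρ → (∀ v, 0 ≤ g₁ v ∧ g₁ v ≤ 1) → (∀ v, 0 ≤ g₂ v ∧ g₂ v ≤ 1) →
    (∀ v, 0 ≤ g₃ v ∧ g₃ v ≤ 1) → (∀ v, 0 ≤ g₄ v ∧ g₄ v ≤ 1) →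
    (∀ v, 0 ≤ g₅ v ∧ g₅ v ≤ 1) → (∀ v, 0 ≤ g₆ v ∧ g₆ v ≤ 1) →
    Reg (ρ ^ 2) g₁ → Reg (ρ ^ 2) g₂ → Reg (ρ ^ 2) g₃ → Reg (ρ ^ 2) g₄ → Reg (ρ ^ 2) g₅ →
    Reg (ρ ^ 2) g₆ →
    |(𝔼 h : V, 𝔼 k : V, 𝔼 d : V,
      g₁ h * g₂ (h + d) * g₃ k * g₄ (k + d) * g₅ (h + k) * g₆ (h + k + d)) -
      (𝔼 v, g₁ v) * (𝔼 v, g₂ v) * (𝔼 v, g₃ v) * (𝔼 v, g₄ v) * (𝔼 v, g₅ v) * (𝔼 v, g₆ v)| ≤
      6 * ρ

/-- TRI: three regular functions are independent along `h, k, h + k`. -/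
def T_TRI : Prop :=
  ∀ (V : Type) [AddCommGroup V] [Module (ZMod 2) V] [Fintype V] (g₁ g₂ g₃ : V → ℝ)
    (ρ : ℝ), 0 ≤ ρ → (∀ v, 0 ≤ g₁ v ∧ g₁ v ≤ 1) → (∀ v, 0 ≤ g₂ v ∧ g₂ v ≤ 1) →
    (∀ v, 0 ≤ g₃ v ∧ g₃ v ≤ 1) → Reg (ρ ^ 2) g₁ → Reg (ρ ^ 2) g₂ → Reg (ρ ^ 2) g₃ →
    |(𝔼 h : V, 𝔼 k : V, g₁ h * g₂ k * g₃ (h + k)) -
      (𝔼 v, g₁ v) * (𝔼 v, g₂ v) * (𝔼 v, g₃ v)| ≤ 6 * ρ

/-- Fourier coefficient of a function of the `m` values. -/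
noncomputable def hat {k : ℕ} (φ : (Fin k → ZMod 2) → ℝ) (γ : Fin k → ZMod 2) : ℝ :=
  𝔼 m : Fin k → ZMod 2, φ m * sg (∑ i, γ i * m i)

/-- FEXP: Fourier inversion and the fourfold convolution identity. -/
def T_FEXP : Prop :=
  ∀ (k : ℕ),
    (∀ (φ : (Fin k → ZMod 2) → ℝ), (∀ m, |φ m| ≤ 1) → ∀ γ, |hat φ γ| ≤ 1) ∧
    (∀ (φ : (Fin k → ZMod 2) → ℝ) (m : Fin k → ZMod 2),
      φ m = ∑ γ : Fin k → ZMod 2, hat φ γ * sg (∑ i, γ i * m i)) ∧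
    (∀ (φ : (Fin k → ZMod 2) → ℝ), hat φ 0 = 𝔼 m : Fin k → ZMod 2, φ m) ∧
    (∀ (φ₁ φ₂ φ₃ φ₄ : (Fin k → ZMod 2) → ℝ) (s : Fin k → ZMod 2),
      𝔼 m₁ : Fin k → ZMod 2, 𝔼 m₂ : Fin k → ZMod 2, 𝔼 m₃ : Fin k → ZMod 2,
        φ₁ m₁ * φ₂ m₂ * φ₃ m₃ * φ₄ (m₁ + m₂ + m₃ + s) =
      ∑ γ : Fin k → ZMod 2,
        hat φ₁ γ * hat φ₂ γ * hat φ₃ γ * hat φ₄ γ * sg (∑ i, γ i * s i))

/-- CNT: the local square count is given by the label model. -/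
def T_CNT : Prop :=
  ∀ (G : Type) [AddCommGroup G] [Module (ZMod 2) G] [Fintype G] (B : Fac G)
    (H : Submodule (ZMod 2) G) (f : G → G → ℝ)
    (F : Fin B.K → Fin B.K → Fin B.K → (Fin B.k → ZMod 2) → ℝ)
    (τ : Fin B.K → (Fin B.k → ZMod 2)) (ν μ ρ : ℝ) (x₀ y₀ : G),
    0 ≤ μ → 0 ≤ ρ → idx H ^ 8 * ν ≤ μ ^ 4 → B.HR ν →
    (∀ x i, τ (B.lam x) i = B.M i x x) →
    (∀ i j l m, 0 ≤ F i j l m ∧ F i j l m ≤ 1) →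
    (∀ x y, f x y = F (B.lam x) (B.lam y) (B.lam (x + y)) (fun i => B.M i x y)) →
    Good H B.lam (ρ ^ 2) x₀ → Good H B.lam (ρ ^ 2) y₀ → Good H B.lam (ρ ^ 2) (x₀ + y₀) →
    |TL H f x₀ y₀ - TM (dens H B.lam x₀) (dens H B.lam y₀) (dens H B.lam (x₀ + y₀)) τ F| ≤
      (B.K : ℝ) ^ 6 * 2 ^ (4 * B.k) * (μ + 6 * ρ)

/-- CNT1: the local density is given by the label model. -/
def T_CNT1 : Prop :=
  ∀ (G : Type) [AddCommGroup G] [Module (ZMod 2) G] [Fintype G] (B : Fac G)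
    (H : Submodule (ZMod 2) G) (f : G → G → ℝ)
    (F : Fin B.K → Fin B.K → Fin B.K → (Fin B.k → ZMod 2) → ℝ)
    (ν μ ρ : ℝ) (x₀ y₀ : G),
    0 ≤ μ → 0 ≤ ρ → idx H ^ 8 * ν ≤ μ ^ 4 → B.HR ν →
    (∀ i j l m, 0 ≤ F i j l m ∧ F i j l m ≤ 1) →
    (∀ x y, f x y = F (B.lam x) (B.lam y) (B.lam (x + y)) (fun i => B.M i x y)) →
    Good H B.lam (ρ ^ 2) x₀ → Good H B.lam (ρ ^ 2) y₀ → Good H B.lam (ρ ^ 2) (x₀ + y₀) →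
    |ML H f x₀ y₀ - MM (dens H B.lam x₀) (dens H B.lam y₀) (dens H B.lam (x₀ + y₀)) F| ≤
      (B.K : ℝ) ^ 3 * 2 ^ B.k * (μ + 6 * ρ)

/-- COLL: the collapse inequality. -/
def T_COLL : Prop :=
  ∀ (Ω A : Type) [Fintype Ω] [Fintype A] (w : Ω → ℝ) (p : A → ℝ) (U V : Ω → A → ℝ),
    (∀ i, 0 ≤ w i) → ∑ i, w i = 1 → (∀ i, 0 ≤ p i) → ∑ i, p i = 1 →
    (∀ i a, 0 ≤ U i a ∧ U i a ≤ 1) → (∀ i a, 0 ≤ V i a ∧ V i a ≤ 1) →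
    (∑ i, w i * ∑ a, p a * (U i a * V i a)) ^ 2 ≤
      ∑ i, w i * ((∑ a, p a * U i a) * (∑ a, p a * V i a))

/-- LI: the label inequality. -/
def T_LI : Prop :=
  ∀ (A : Type) [Fintype A] (k : ℕ) (p q r : A → ℝ) (τ : A → (Fin k → ZMod 2))
    (F : A → A → A → (Fin k → ZMod 2) → ℝ),
    (∀ i, 0 ≤ p i) → ∑ i, p i = 1 → (∀ i, 0 ≤ q i) → ∑ i, q i = 1 →
    (∀ i, 0 ≤ r i) → ∑ i, r i = 1 → (∀ i j l m, 0 ≤ F i j l m ∧ F i j l m ≤ 1) →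
    MM p q r F ^ 16 ≤ TM p q r τ F

/-- LOC: localisation of the averages. -/
def T_LOC : Prop :=
  ∀ (G : Type) [AddCommGroup G] [Module (ZMod 2) G] [Fintype G] (H : Submodule (ZMod 2) G)
    (f : G → G → ℝ),
    (TH H f f f f = 𝔼 x : G, 𝔼 y : G, TL H f x y) ∧
    (𝔼 x : G, 𝔼 y : G, f x y = 𝔼 x : G, 𝔼 y : G, ML H f x y) ∧
    (∀ (K : ℕ) (lam : G → Fin K) (x₀ : G), (∀ l, 0 ≤ dens H lam x₀ l) ∧
      ∑ l, dens H lam x₀ l = 1)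

/-- MAINH: density of squares with difference in a subspace of bounded index. -/
def T_MAINH : Prop :=
  ∀ α ε : ℝ, 0 < α → 0 < ε → ∃ n₁ : ℕ,
    ∀ (G : Type) [AddCommGroup G] [Module (ZMod 2) G] [Fintype G] (f : G → G → ℝ),
      (∀ x y, 0 ≤ f x y ∧ f x y ≤ 1) → α ≤ 𝔼 x : G, 𝔼 y : G, f x y →
      ∃ H : Submodule (ZMod 2) G, idx H ≤ n₁ ∧ α ^ 16 - ε ≤ TH H f f f f

/-- FIN: the final statement of part 2. -/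
def T_FIN : Prop := ValidExponent 16

end Pool.Agent.H81.SQ
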